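import Pool.Agent.Lib.MP_0775d3_lc.Quadric.Fourier

/-! The outer factors are restricted Fourier matrices: columns map at most two to one by
`(tr τ, -ξ)` because `nm τ` is determined by `ξ`. -/

set_option linter.unusedSectionVars false

namespace MP0775d3.Quadric

open Matrix MP0775d3.Sl2

section aux
variable {k : Type} [Field k] [Fintype k] [DecidableEq k] {m : ℕ}

/-- The coordinates of a cell. -/
def abCellMap (x : kˣ × (Fin m → k)) : k × (Fin m → k) := ((x.1 : k), x.2)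

/-- The frequency of an inner index, with signs `e` and `e'`. -/
noncomputable def abInnerMap (c : Fin m → kˣ) (c₀ : kˣ) (Q : QData k) (e e' : kˣ)
    (z : Inner c c₀ Q) : k × (Fin m → k) :=
  ((e' : k) * Q.tr (z.1.2 : Q.E), fun i => (e : k) * z.1.1 i)

theorem abCellMap_fib (w : k × (Fin m → k)) :
    (({x | abCellMap x = w} : Set (kˣ × (Fin m → k))).ncard : ℝ) ≤ 2 := by
  have h : ({x | abCellMap x = w} : Set (kˣ × (Fin m → k))).ncard ≤ 1 := by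
    rw [Set.ncard_le_one]
    rintro ⟨a, v⟩ hx ⟨a', v'⟩ hy
    have h1 : abCellMap (a, v) = abCellMap (a', v') := by
      rw [Set.mem_ofPred_eq] at hx hy
      rw [hx, hy]
    simp only [abCellMap, Prod.mk.injEq] at h1
    obtain ⟨h2, h3⟩ := h1
    rw [h3, Units.ext h2]
  have h2 : ((({x | abCellMap x = w} : Set (kˣ × (Fin m → k))).ncard : ℕ) : ℝ) ≤ (1 : ℕ) := by
    exact_mod_cast h
  push_cast at h2
  linarith

theorem abInnerMap_fib (c : Fin m → kˣ) (c₀ : kˣ) (Q : QData k) (hQ : ∀ t s : k, Q.cnt t s ≤ 2)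
    (e e' : kˣ) (w : k × (Fin m → k)) :
    (({z | abInnerMap c c₀ Q e e' z = w} : Set (Inner c c₀ Q)).ncard : ℝ) ≤ 2 := by
  have hval : ∀ z : Inner c c₀ Q, abInnerMap c c₀ Q e e' z = w →
      z.1.1 = (fun i => ((e⁻¹ : kˣ) : k) * w.2 i) ∧
      Q.tr (z.1.2 : Q.E) = ((e'⁻¹ : kˣ) : k) * w.1 := by
    rintro z hz
    have h1 : (e' : k) * Q.tr (z.1.2 : Q.E) = w.1 := by rw [← hz]; rfl
    have h2 : ∀ i, (e : k) * z.1.1 i = w.2 i := by intro i; rw [← hz]; rfl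
    refine ⟨?_, ?_⟩
    · funext i
      rw [← h2 i, ← mul_assoc, Units.inv_mul, one_mul]
    · rw [← h1, ← mul_assoc, Units.inv_mul, one_mul]
  set F : Finset Q.E := Finset.univ.filter fun x : Q.E => Q.tr x = ((e'⁻¹ : kˣ) : k) * w.1 ∧
    Q.nm x = Qs c (fun i => ((e⁻¹ : kˣ) : k) * w.2 i) * (c₀ : k) with hF
  have hcard : F.card ≤ 2 := hQ _ _
  have hle : ({z | abInnerMap c c₀ Q e e' z = w} : Set (Inner c c₀ Q)).ncard ≤
      (F : Set Q.E).ncard := by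
    refine Set.ncard_le_ncard_of_injOn (fun z : Inner c c₀ Q => (z.1.2 : Q.E)) ?_ ?_
      (Set.toFinite _)
    · intro z hz
      obtain ⟨h1, h2⟩ := hval z hz
      rw [hF]
      simp only [Finset.coe_filter, Finset.mem_univ, true_and]
      refine ⟨h2, ?_⟩
      rw [← h1]
      exact z.2
    · intro z hz z' hz' hzz
      obtain ⟨h1, _⟩ := hval z hz
      obtain ⟨h1', _⟩ := hval z' hz'
      exact Subtype.ext (Prod.ext (h1.trans h1'.symm) (Units.ext hzz))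
  rw [Set.ncard_coe_finset] at hle
  have : (({z | abInnerMap c c₀ Q e e' z = w} : Set (Inner c c₀ Q)).ncard : ℝ) ≤ ((2 : ℕ) : ℝ) := by
    exact_mod_cast hle.trans hcard
  simpa using this

theorem ab_bound (k : Type) [Field k] [Fintype k] (m : ℕ) (C γ : ℝ) (hC : 1 ≤ C) :
    C * ((Fintype.card k : ℝ) ^ (m + 1) * (Fintype.card k : ℝ) ^ (-γ)) ≤
      2 * C * ((Fintype.card k : ℝ) ^ (m + 1) * (Fintype.card k : ℝ) ^ (-γ)) := by
  have h2 : 0 ≤ (Fintype.card k : ℝ) ^ (m + 1) * (Fintype.card k : ℝ) ^ (-γ) := by positivity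
  exact mul_le_mul_of_nonneg_right (by linarith) h2

end aux

theorem torA_dec (m : ℕ) (δ : ℝ) (hδ : 0 < δ) (hδ1 : δ ≤ 1) :
    ∃ γ : ℝ, 0 < γ ∧ γ ≤ 1 ∧ ∃ C : ℝ, 1 ≤ C ∧
    ∀ (k : Type) [Field k] [Fintype k] [DecidableEq k] (c : Fin m → kˣ) (c₀ : kˣ) (Q : QData k)
      (_ : ∀ t s : k, Q.cnt t s ≤ 2) (ψ : AddChar k ℂ),
      RDec (torA c c₀ Q ψ) (C * ((Fintype.card k : ℝ) ^ (m + 1) * (Fintype.card k : ℝ) ^ (-γ)))
        (C * (Fintype.card k : ℝ) ^ δ) := by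
  obtain ⟨γ, hγ, hγ1, C, hC, H⟩ := fourier_dec m δ hδ hδ1
  refine ⟨γ, hγ, hγ1, 2 * C, by linarith, ?_⟩
  intro k _ _ _ c c₀ Q hQ ψ
  have hs : 0 ≤ C * (Fintype.card k : ℝ) ^ δ := mul_nonneg (by linarith) (by positivity)
  have h0 := (H k (fun t => ψ t)).submatrix hs (by norm_num : (0 : ℝ) ≤ 2)
    abCellMap (abInnerMap c c₀ Q (-1) 1) abCellMap_fib (abInnerMap_fib c c₀ Q hQ (-1) 1)
  refine RDec.mono (A := torA c c₀ Q ψ) ?_ (ab_bound k m C γ hC) (le_of_eq (by ring :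
    2 * (C * (Fintype.card k : ℝ) ^ δ) = 2 * C * (Fintype.card k : ℝ) ^ δ))
  convert h0 using 1
  ext x z
  simp only [torA, Matrix.of_apply, Matrix.submatrix_apply, abCellMap, abInnerMap, dot]
  congr 1
  rw [add_comm]
  congr 1
  · push_cast
    ring
  · rw [← Finset.sum_neg_distrib]
    refine Finset.sum_congr rfl fun i _ => ?_
    push_cast
    ring

theorem torB_dec (m : ℕ) (δ : ℝ) (hδ : 0 < δ) (hδ1 : δ ≤ 1) :
    ∃ γ : ℝ, 0 < γ ∧ γ ≤ 1 ∧ ∃ C : ℝ, 1 ≤ C ∧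
    ∀ (k : Type) [Field k] [Fintype k] [DecidableEq k] (c : Fin m → kˣ) (c₀ : kˣ) (Q : QData k)
      (_ : ∀ t s : k, Q.cnt t s ≤ 2) (ψ : AddChar k ℂ),
      RDec (torB c c₀ Q ψ) (C * ((Fintype.card k : ℝ) ^ (m + 1) * (Fintype.card k : ℝ) ^ (-γ)))
        (C * (Fintype.card k : ℝ) ^ δ) := by
  obtain ⟨γ, hγ, hγ1, C, hC, H⟩ := fourier_dec m δ hδ hδ1
  refine ⟨γ, hγ, hγ1, 2 * C, by linarith, ?_⟩
  intro k _ _ _ c c₀ Q hQ ψ
  have hs : 0 ≤ C * (Fintype.card k : ℝ) ^ δ := mul_nonneg (by linarith) (by positivity)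
  have h0 := (H k (fun t => ψ t)).submatrix hs (by norm_num : (0 : ℝ) ≤ 2)
    (abInnerMap c c₀ Q 1 (-1)) abCellMap (abInnerMap_fib c c₀ Q hQ 1 (-1)) abCellMap_fib
  refine RDec.mono (A := torB c c₀ Q ψ) ?_ (ab_bound k m C γ hC) (le_of_eq (by ring :
    2 * (C * (Fintype.card k : ℝ) ^ δ) = 2 * C * (Fintype.card k : ℝ) ^ δ))
  convert h0 using 1
  ext z y
  simp only [torB, Matrix.of_apply, Matrix.submatrix_apply, abCellMap, abInnerMap, dot]
  congr 1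
  rw [sub_eq_add_neg, add_comm]
  congr 1
  · push_cast
    ring
  · refine Finset.sum_congr rfl fun i _ => ?_
    push_cast
    ring

end MP0775d3.Quadric
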