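import Pool.Agent.Lib.MP_0775d3_lc.Quadric.Defs
import Pool.Agent.Lib.MP_0775d3_lc.Sl2.GroupDec

/-! The middle factor is a pulled back group matrix of `k^m × {τ : nm τ = 1}`: choose for every
`ξ` that occurs a base point `τ_ξ` and map `(ξ, τ)` to `(ξ, τ / τ_ξ)` (injective); trivial `Z`.
The norm one group has at most `2 q` elements since `cnt ≤ 2`. -/

set_option linter.unusedSectionVars false

namespace MP0775d3.Quadric

open Matrix MP0775d3.Sl2

section
variable {k : Type} [Field k] [Fintype k] [DecidableEq k]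

/-- The norm one group. -/
private def TorC_N (Q : QData k) : Subgroup Q.Eˣ := (Units.map Q.nm).ker

private theorem TorC_mem (Q : QData k) (τ : Q.Eˣ) : τ ∈ TorC_N Q ↔ Q.nm (τ : Q.E) = 1 := by
  unfold TorC_N
  rw [MonoidHom.mem_ker, Units.ext_iff]
  rfl

private theorem TorC_card_N (Q : QData k) (hQ : ∀ t s : k, Q.cnt t s ≤ 2) :
    Nat.card (TorC_N Q) ≤ 2 * Fintype.card k := by
  classical
  have h1 : Nat.card (TorC_N Q) ≤
      Nat.card {x : Q.E // x ∈ Finset.univ.filter fun x : Q.E => Q.nm x = 1} := by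
    refine Nat.card_le_card_of_injective
      (fun τ => ⟨((τ : Q.Eˣ) : Q.E), by simpa using (TorC_mem Q τ).1 τ.2⟩) ?_
    intro τ τ' h
    exact Subtype.ext (Units.ext (congrArg Subtype.val h))
  refine h1.trans ?_
  rw [Nat.card_eq_fintype_card, Fintype.card_coe]
  rw [Finset.card_eq_sum_card_fiberwise (f := Q.tr) (t := Finset.univ)
    (fun x _ => by simp)]
  calc ∑ t : k, ((Finset.univ.filter fun x : Q.E => Q.nm x = 1).filter
        fun x => Q.tr x = t).card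
      ≤ ∑ _t : k, 2 := by
        refine Finset.sum_le_sum fun t _ => ?_
        have h2 := hQ t 1
        unfold QData.cnt at h2
        rw [Finset.filter_filter]
        refine le_trans (le_of_eq ?_) h2
        congr 1
        ext x
        simp only [Finset.mem_filter, Finset.mem_univ, true_and]
        exact and_comm
    _ = 2 * Fintype.card k := by
        rw [Finset.sum_const, Finset.card_univ, smul_eq_mul, mul_comm]

/-- The base point over `ξ`. -/
private noncomputable def TorC_base {m : ℕ} (c : Fin m → kˣ) (c₀ : kˣ) (Q : QData k)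
    (ξ : Fin m → k) : Q.Eˣ :=
  open Classical in
  if h : ∃ τ : Q.Eˣ, Q.nm (τ : Q.E) = Qs c ξ * (c₀ : k) then h.choose else 1

private theorem TorC_base_mem {m : ℕ} (c : Fin m → kˣ) (c₀ : kˣ) (Q : QData k)
    (z : Inner c c₀ Q) : z.1.2 * (TorC_base c c₀ Q z.1.1)⁻¹ ∈ TorC_N Q := by
  classical
  have h : ∃ τ : Q.Eˣ, Q.nm (τ : Q.E) = Qs c z.1.1 * (c₀ : k) := ⟨z.1.2, z.2⟩
  have h2 : Q.nm ((TorC_base c c₀ Q z.1.1 : Q.Eˣ) : Q.E) = Qs c z.1.1 * (c₀ : k) := by
    unfold TorC_base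
    rw [dif_pos h]
    exact h.choose_spec
  unfold TorC_N
  rw [MonoidHom.mem_ker, map_mul, map_inv, mul_inv_eq_one]
  refine Units.ext ?_
  rw [Units.coe_map, Units.coe_map]
  exact z.2.trans h2.symm

/-- The map to the group. -/
private noncomputable def TorC_map {m : ℕ} (c : Fin m → kˣ) (c₀ : kˣ) (Q : QData k)
    (z : Inner c c₀ Q) : Multiplicative (Fin m → k) × TorC_N Q :=
  (Multiplicative.ofAdd z.1.1, ⟨z.1.2 * (TorC_base c c₀ Q z.1.1)⁻¹, TorC_base_mem c c₀ Q z⟩)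

private theorem TorC_map_inj {m : ℕ} (c : Fin m → kˣ) (c₀ : kˣ) (Q : QData k) :
    Function.Injective (TorC_map c c₀ Q) := by
  intro z w h
  have h1 : z.1.1 = w.1.1 := by
    have := congrArg Prod.fst h
    exact Multiplicative.ofAdd.injective this
  have h2 : z.1.2 * (TorC_base c c₀ Q z.1.1)⁻¹ = w.1.2 * (TorC_base c c₀ Q w.1.1)⁻¹ :=
    congrArg Subtype.val (congrArg Prod.snd h)
  rw [h1] at h2
  exact Subtype.ext (Prod.ext h1 (mul_right_cancel h2))

private theorem TorC_fibre {m : ℕ} (c : Fin m → kˣ) (c₀ : kˣ) (Q : QData k)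
    (x₀ : Inner c c₀ Q) : (({x | TorC_map c c₀ Q x * (TorC_map c c₀ Q x₀)⁻¹ ∈
      (⊥ : Subgroup (Multiplicative (Fin m → k) × TorC_N Q))} :
        Set (Inner c c₀ Q)).ncard : ℝ) ≤ 1 := by
  have h : ({x | TorC_map c c₀ Q x * (TorC_map c c₀ Q x₀)⁻¹ ∈
      (⊥ : Subgroup (Multiplicative (Fin m → k) × TorC_N Q))} : Set (Inner c c₀ Q)) ⊆ {x₀} := by
    intro x hx
    have hx' : TorC_map c c₀ Q x * (TorC_map c c₀ Q x₀)⁻¹ ∈
      (⊥ : Subgroup (Multiplicative (Fin m → k) × TorC_N Q)) := hx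
    rw [Subgroup.mem_bot, mul_inv_eq_one] at hx'
    exact TorC_map_inj c c₀ Q hx'
  have h2 := Set.ncard_le_ncard h (Set.finite_singleton _)
  rw [Set.ncard_singleton] at h2
  exact_mod_cast h2

/-- The function on the group. -/
private noncomputable def TorC_h {m : ℕ} (c₀ : kˣ) (Q : QData k) (F : k → ℂ)
    (g : Multiplicative (Fin m → k) × TorC_N Q) : ℂ :=
  open Classical in
  if g.1 = 1 then F (c₀ * Q.tr ((g.2 : Q.Eˣ) : Q.E)) else 0

private theorem TorC_eq {m : ℕ} (c : Fin m → kˣ) (c₀ : kˣ) (Q : QData k) (F : k → ℂ) :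
    torC c c₀ Q F = Matrix.of fun x y =>
      TorC_h c₀ Q F (TorC_map c c₀ Q x * (TorC_map c c₀ Q y)⁻¹) := by
  classical
  ext z w
  unfold torC TorC_h
  rw [Matrix.of_apply, Matrix.of_apply]
  have h1 : (TorC_map c c₀ Q z * (TorC_map c c₀ Q w)⁻¹).1 = 1 ↔ z.1.1 = w.1.1 := by
    rw [Prod.fst_mul, Prod.fst_inv, mul_inv_eq_one]
    exact Multiplicative.ofAdd.injective.eq_iff
  by_cases h : z.1.1 = w.1.1
  · rw [if_pos h, if_pos (h1.2 h)]
    have h2 : (((TorC_map c c₀ Q z * (TorC_map c c₀ Q w)⁻¹).2 : TorC_N Q) : Q.Eˣ) =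
        z.1.2 * w.1.2⁻¹ := by
      rw [Prod.snd_mul, Prod.snd_inv, Subgroup.coe_mul, Subgroup.coe_inv]
      change z.1.2 * (TorC_base c c₀ Q z.1.1)⁻¹ * (w.1.2 * (TorC_base c c₀ Q w.1.1)⁻¹)⁻¹ = _
      rw [h, mul_inv, inv_inv]
      rw [mul_mul_mul_comm, inv_mul_cancel, mul_one]
    rw [h2]
  · rw [if_neg h, if_neg (fun h' => h (h1.1 h'))]

end

theorem torC_dec (m : ℕ) (δ : ℝ) (hδ : 0 < δ) (hδ1 : δ ≤ 1) :
    ∃ γ : ℝ, 0 < γ ∧ γ ≤ 1 ∧ ∃ C : ℝ, 1 ≤ C ∧
    ∀ (k : Type) [Field k] [Fintype k] [DecidableEq k] (c : Fin m → kˣ) (c₀ : kˣ) (Q : QData k)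
      (_ : ∀ t s : k, Q.cnt t s ≤ 2) (F : k → ℂ),
      RDec (torC c c₀ Q F) (C * ((Fintype.card k : ℝ) ^ (m + 1) * (Fintype.card k : ℝ) ^ (-γ)))
        (C * (Fintype.card k : ℝ) ^ δ) := by
  have hm : (1 : ℝ) ≤ (m : ℝ) + 1 := by
    have : (0 : ℝ) ≤ (m : ℝ) := Nat.cast_nonneg m
    linarith
  have hm0 : (0 : ℝ) < (m : ℝ) + 1 := by linarith
  have hd0 : 0 < δ / (m + 1) := by positivity
  have hd1 : δ / (m + 1) ≤ 1 := by
    rw [div_le_one hm0]
    linarith
  obtain ⟨γ, hγ, hγ1, C, hC, hmain⟩ := group_dec (δ / (m + 1)) hd0 hd1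
  refine ⟨γ, hγ, hγ1, 2 * C, by linarith, ?_⟩
  intro k _ _ _ c c₀ Q hQ F
  have hq0 : (0 : ℝ) < (Fintype.card k : ℝ) := by
    exact_mod_cast Fintype.card_pos
  have hq1 : (1 : ℝ) ≤ (Fintype.card k : ℝ) := by
    exact_mod_cast Fintype.card_pos
  have h := hmain (Multiplicative (Fin m → k) × TorC_N Q) ⊥ (TorC_h c₀ Q F)
    (by
      intro z hz g
      rw [Subgroup.mem_bot] at hz
      rw [hz, one_mul])
    (Inner c c₀ Q) (Inner c c₀ Q) (TorC_map c c₀ Q) (TorC_map c c₀ Q) 1 zero_le_one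
    (TorC_fibre c c₀ Q) (TorC_fibre c c₀ Q)
  rw [← TorC_eq] at h
  have hcardG : (Nat.card (Multiplicative (Fin m → k) × TorC_N Q) : ℝ) ≤
      2 * (Fintype.card k : ℝ) ^ (m + 1) := by
    have h1 : Nat.card (Multiplicative (Fin m → k)) = Fintype.card k ^ m := by
      rw [Nat.card_congr (Multiplicative.toAdd (α := Fin m → k)), Nat.card_eq_fintype_card,
        Fintype.card_fun, Fintype.card_fin]
    have h2 := TorC_card_N Q hQ
    rw [Nat.card_prod, h1]
    have h3 : Fintype.card k ^ m * Nat.card (TorC_N Q) ≤ Fintype.card k ^ m *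
        (2 * Fintype.card k) := Nat.mul_le_mul_left _ h2
    have h4 : Fintype.card k ^ m * (2 * Fintype.card k) = 2 * Fintype.card k ^ (m + 1) := by ring
    rw [h4] at h3
    exact_mod_cast h3
  have hb : (Nat.card (⊥ : Subgroup (Multiplicative (Fin m → k) × TorC_N Q)) : ℝ) = 1 := by
    rw [Subgroup.card_bot, Nat.cast_one]
  rw [hb, div_one, one_mul] at h
  have hG0 : (0 : ℝ) ≤ (Nat.card (Multiplicative (Fin m → k) × TorC_N Q) : ℝ) :=
    Nat.cast_nonneg _
  set q : ℝ := (Fintype.card k : ℝ) with hq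
  refine h.mono ?_ ?_
  · have e1 : (Nat.card (Multiplicative (Fin m → k) × TorC_N Q) : ℝ) ^ (1 - γ) ≤
        (2 * q ^ (m + 1)) ^ (1 - γ) :=
      Real.rpow_le_rpow hG0 hcardG (by linarith)
    have e2 : (2 * q ^ (m + 1)) ^ (1 - γ) ≤ 2 * (q ^ (m + 1) * q ^ (-γ)) := by
      rw [Real.mul_rpow (by norm_num) (by positivity)]
      have e3 : (2 : ℝ) ^ (1 - γ) ≤ 2 := by
        calc (2 : ℝ) ^ (1 - γ) ≤ (2 : ℝ) ^ (1 : ℝ) :=
              Real.rpow_le_rpow_of_exponent_le (by norm_num) (by linarith)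
          _ = 2 := Real.rpow_one 2
      have e4 : (q ^ (m + 1)) ^ (1 - γ) ≤ q ^ (m + 1) * q ^ (-γ) := by
        rw [← Real.rpow_natCast, ← Real.rpow_mul hq0.le, ← Real.rpow_add hq0]
        refine Real.rpow_le_rpow_of_exponent_le hq1 ?_
        push_cast
        nlinarith
      exact mul_le_mul e3 e4 (by positivity) (by norm_num)
    calc C * (Nat.card (Multiplicative (Fin m → k) × TorC_N Q) : ℝ) ^ (1 - γ)
        ≤ C * (2 * (q ^ (m + 1) * q ^ (-γ))) :=
          mul_le_mul_of_nonneg_left (e1.trans e2) (by linarith)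
      _ = 2 * C * (q ^ (m + 1) * q ^ (-γ)) := by ring
  · have e1 : (Nat.card (Multiplicative (Fin m → k) × TorC_N Q) : ℝ) ^ (δ / (m + 1)) ≤
        (2 * q ^ (m + 1)) ^ (δ / (m + 1)) :=
      Real.rpow_le_rpow hG0 hcardG hd0.le
    have e2 : (2 * q ^ (m + 1)) ^ (δ / (m + 1)) ≤ 2 * q ^ δ := by
      rw [Real.mul_rpow (by norm_num) (by positivity)]
      have e3 : (2 : ℝ) ^ (δ / (m + 1)) ≤ 2 := by
        calc (2 : ℝ) ^ (δ / (m + 1)) ≤ (2 : ℝ) ^ (1 : ℝ) :=
              Real.rpow_le_rpow_of_exponent_le (by norm_num) hd1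
          _ = 2 := Real.rpow_one 2
      have e4 : (q ^ (m + 1)) ^ (δ / (m + 1)) = q ^ δ := by
        rw [← Real.rpow_natCast, ← Real.rpow_mul hq0.le]
        congr 1
        push_cast
        field_simp
      rw [e4]
      exact mul_le_mul_of_nonneg_right e3 (by positivity)
    calc (Nat.card (Multiplicative (Fin m → k) × TorC_N Q) : ℝ) ^ (δ / (m + 1))
        ≤ 2 * q ^ δ := e1.trans e2
      _ ≤ 2 * C * q ^ δ := by
          refine mul_le_mul_of_nonneg_right ?_ (by positivity)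
          linarith

end MP0775d3.Quadric
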