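import Pool.Agent.Lib.MP_0775d3_lc.Quadric.Defs

/-! The factorisation. -/

set_option linter.unusedSectionVars false

namespace MP0775d3.Quadric

open Matrix MP0775d3.Sl2

variable {k : Type} [Field k] [Fintype k] [DecidableEq k] {m : ℕ}

private theorem toreq_sum (c : Fin m → kˣ) (c₀ : kˣ) (Q : QData k)
    (g : (Fin m → k) × Q.Eˣ → ℂ) :
    ∑ z : Inner c c₀ Q, g z.1 =
      ∑ ξ : Fin m → k, ∑ τ : Q.Eˣ,
        if Q.nm (τ : Q.E) = Qs c ξ * (c₀ : k) then g (ξ, τ) else 0 := by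
  classical
  rw [← Finset.sum_subtype (Finset.univ.filter fun z : (Fin m → k) × Q.Eˣ =>
    Q.nm (z.2 : Q.E) = Qs c z.1 * (c₀ : k)) (by simp) g, Finset.sum_filter,
    Fintype.sum_prod_type]

private theorem toreq_dot (ξ u v : Fin m → k) : dot ξ (u - v) = dot ξ u - dot ξ v := by
  unfold dot
  rw [← Finset.sum_sub_distrib]
  exact Finset.sum_congr rfl fun i _ => by rw [Pi.sub_apply]; ring

private theorem toreq_ne (Q : QData k) (τ : Q.Eˣ) : Q.nm (τ : Q.E) ≠ 0 := by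
  intro h
  have h1 : Q.nm ((τ : Q.E) * ((τ⁻¹ : Q.Eˣ) : Q.E)) = 1 := by
    rw [Units.mul_inv, map_one]
  rw [map_mul, h, zero_mul] at h1
  exact zero_ne_one h1

theorem torM_eq (c : Fin m → kˣ) (c₀ : kˣ) (Q : QData k) (ψ : AddChar k ℂ) (F : k → ℂ) :
    torM c c₀ Q ψ F = torA c c₀ Q ψ * torC c c₀ Q F * torB c c₀ Q ψ := by
  classical
  ext x y
  rw [Matrix.mul_apply]
  simp only [Matrix.mul_apply, torA, torB, torC, torM, Matrix.of_apply]
  rw [toreq_sum c c₀ Q (fun w => (∑ z : Inner c c₀ Q,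
    ψ (-dot z.1.1 x.2 + x.1 * Q.tr (z.1.2 : Q.E)) *
      (if z.1.1 = w.1 then F (c₀ * Q.tr ((z.1.2 * w.2⁻¹ : Q.Eˣ) : Q.E)) else 0)) *
    ψ (dot w.1 y.2 - y.1 * Q.tr (w.2 : Q.E)))]
  refine Finset.sum_congr rfl fun ξ _ => ?_
  -- the inner sum
  have hin : ∀ τ' : Q.Eˣ, (∑ z : Inner c c₀ Q,
      ψ (-dot z.1.1 x.2 + x.1 * Q.tr (z.1.2 : Q.E)) *
        (if z.1.1 = ξ then F (c₀ * Q.tr ((z.1.2 * τ'⁻¹ : Q.Eˣ) : Q.E)) else 0)) =
      ∑ τ : Q.Eˣ, if Q.nm (τ : Q.E) = Qs c ξ * (c₀ : k) then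
        ψ (-dot ξ x.2 + x.1 * Q.tr (τ : Q.E)) *
          F (c₀ * Q.tr ((τ * τ'⁻¹ : Q.Eˣ) : Q.E)) else 0 := by
    intro τ'
    rw [toreq_sum c c₀ Q (fun z => ψ (-dot z.1 x.2 + x.1 * Q.tr (z.2 : Q.E)) *
        (if z.1 = ξ then F (c₀ * Q.tr ((z.2 * τ'⁻¹ : Q.Eˣ) : Q.E)) else 0))]
    rw [Finset.sum_eq_single ξ]
    · refine Finset.sum_congr rfl fun τ _ => ?_
      simp only [if_true]
    · intro ζ _ hζ
      refine Finset.sum_eq_zero fun τ _ => ?_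
      simp only [if_neg hζ, mul_zero, ite_self]
    · intro h
      exact absurd (Finset.mem_univ _) h
  by_cases h : Qs c ξ ≠ 0
  · rw [dif_pos h]
    unfold QData.dbl
    rw [Finset.sum_comm, Finset.mul_sum]
    refine Finset.sum_congr rfl fun τ' _ => ?_
    simp only [Units.val_mk0]
    by_cases h' : Q.nm (τ' : Q.E) = Qs c ξ * (c₀ : k)
    · rw [if_pos h', hin τ', Finset.mul_sum, Finset.sum_mul]
      refine Finset.sum_congr rfl fun τ _ => ?_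
      by_cases h'' : Q.nm (τ : Q.E) = Qs c ξ * (c₀ : k)
      · rw [if_pos ⟨h'', h'⟩, if_pos h'']
        have e : ψ (-dot ξ (x.2 - y.2)) *
            ψ ((x.1 : k) * Q.tr (τ : Q.E) - (y.1 : k) * Q.tr (τ' : Q.E)) =
            ψ (-dot ξ x.2 + x.1 * Q.tr (τ : Q.E)) *
              ψ (dot ξ y.2 - y.1 * Q.tr (τ' : Q.E)) := by
          rw [← AddChar.map_add_eq_mul, ← AddChar.map_add_eq_mul, toreq_dot]
          congr 1
          ring
        linear_combination F (c₀ * Q.tr ((τ * τ'⁻¹ : Q.Eˣ) : Q.E)) * e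
      · rw [if_neg h'', if_neg (fun hh => h'' hh.1), mul_zero, zero_mul]
    · rw [if_neg h']
      refine mul_eq_zero_of_right _ (Finset.sum_eq_zero fun τ _ => ?_)
      rw [if_neg (fun hh => h' hh.2)]
  · rw [dif_neg h]
    push Not at h
    symm
    refine Finset.sum_eq_zero fun τ' _ => ?_
    rw [if_neg]
    rw [h, zero_mul]
    exact toreq_ne Q τ'

end MP0775d3.Quadric
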