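import Pool.Agent.Lib.MP_0775d3_lc.Quadric.Defs

/-! Numbers of solutions of quadratic equations (at most two for the last coordinate) and the
rank of the part with `Qs ξ = 0`. -/

set_option linter.unusedSectionVars false

namespace MP0775d3.Quadric

open Matrix MP0775d3.Sl2

variable {k : Type} [Field k] [Fintype k] [DecidableEq k] {m : ℕ}

private theorem zeros_sq (s : k) : (Finset.univ.filter fun x : k => x ^ 2 = s).card ≤ 2 := by
  rcases (Finset.univ.filter fun x : k => x ^ 2 = s).eq_empty_or_nonempty with h | ⟨y, hy⟩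
  · rw [h]
    simp
  · have h1 : (Finset.univ.filter fun x : k => x ^ 2 = s) ⊆ {y, -y} := by
      intro x hx
      rw [Finset.mem_filter] at hx hy
      have h2 : x ^ 2 = y ^ 2 := by rw [hx.2, hy.2]
      rw [Finset.mem_insert, Finset.mem_singleton]
      exact sq_eq_sq_iff_eq_or_eq_neg.1 h2
    exact (Finset.card_le_card h1).trans Finset.card_le_two

private theorem zeros_gen (hm : 1 ≤ m) (a : Fin m → k) (ha : ∀ i, a i ≠ 0) (t : k) :
    (Finset.univ.filter fun w : Fin m → k => ∑ i, a i * w i ^ 2 = t).card ≤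
      2 * Fintype.card k ^ (m - 1) := by
  obtain ⟨n, rfl⟩ : ∃ n, m = n + 1 := ⟨m - 1, by omega⟩
  have h1 := Finset.card_le_mul_card_image
    (f := fun w : Fin (n + 1) → k => (Fin.tail w : Fin n → k))
    (Finset.univ.filter fun w : Fin (n + 1) → k => ∑ i, a i * w i ^ 2 = t) 2 (by
      intro v _
      refine le_trans ?_ (zeros_sq ((t - ∑ i : Fin n, a i.succ * v i ^ 2) / a 0))
      refine Finset.card_le_card_of_injOn (fun w => w 0) ?_ ?_
      · intro w hw
        simp only [Finset.coe_filter, Finset.mem_filter, Finset.mem_univ, true_and,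
          Set.mem_ofPred_eq] at hw ⊢
        obtain ⟨hw1, hw2⟩ := hw
        rw [Fin.sum_univ_succ] at hw1
        rw [eq_div_iff (ha 0), ← hw1, ← hw2]
        simp only [Fin.tail]
        ring
      · intro w hw w' hw' h0
        simp only [Finset.coe_filter, Finset.mem_filter, Finset.mem_univ, true_and,
          Set.mem_ofPred_eq] at hw hw'
        have h2 : Fin.tail w = Fin.tail w' := by rw [hw.2, hw'.2]
        have h3 : w 0 = w' 0 := h0
        rw [← Fin.cons_self_tail w, ← Fin.cons_self_tail w', h2, h3])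
  refine h1.trans (Nat.mul_le_mul_left 2 ?_)
  refine (Finset.card_le_univ _).trans ?_
  rw [Fintype.card_fun, Fintype.card_fin]
  simp

theorem card_QW (hm : 1 ≤ m) (c : Fin m → kˣ) (t : k) :
    (Finset.univ.filter fun w : Fin m → k => QW c w = t).card ≤
      2 * Fintype.card k ^ (m - 1) :=
  zeros_gen hm (fun i => (c i : k)) (fun i => (c i).ne_zero) t

theorem card_Qs (hk : ringChar k ≠ 2) (hm : 1 ≤ m) (c : Fin m → kˣ) :
    (Finset.univ.filter fun ξ : Fin m → k => Qs c ξ = 0).card ≤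
      2 * Fintype.card k ^ (m - 1) := by
  have h2 : (2 : k) ≠ 0 := Ring.two_ne_zero hk
  have h4 : (4 : k) ≠ 0 := by
    have : (4 : k) = 2 * 2 := by norm_num
    rw [this]
    exact mul_ne_zero h2 h2
  have h := zeros_gen hm (fun i => (4 * (c i : k))⁻¹)
    (fun i => inv_ne_zero (mul_ne_zero h4 (c i).ne_zero)) (0 : k)
  refine le_trans (le_of_eq ?_) h
  congr 1
  refine Finset.filter_congr fun ξ _ => ?_
  have : Qs c ξ = ∑ i, (4 * (c i : k))⁻¹ * ξ i ^ 2 := by
    unfold Qs
    refine Finset.sum_congr rfl fun i _ => ?_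
    rw [div_eq_mul_inv, mul_comm]
  rw [this]

private theorem dot_sub' (ξ v w : Fin m → k) : dot ξ (v - w) = dot ξ v - dot ξ w := by
  unfold dot
  rw [← Finset.sum_sub_distrib]
  refine Finset.sum_congr rfl fun i _ => ?_
  rw [Pi.sub_apply]
  ring

/-- the vectors with `Qs ξ = 0` -/
private abbrev ZQ (c : Fin m → kˣ) : Type := {ξ : Fin m → k // Qs c ξ = 0}

private noncomputable def zerosP (c : Fin m → kˣ) (ψ : AddChar k ℂ) :
    Matrix (kˣ × (Fin m → k)) (ZQ c × kˣ) ℂ :=
  Matrix.of fun x w => if x.1 = w.2 then ψ (-dot w.1.1 x.2) else 0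

private noncomputable def zerosQ (c : Fin m → kˣ) (c₀ : kˣ) (ψ : AddChar k ℂ) (F : k → ℂ) :
    Matrix (ZQ c × kˣ) (kˣ × (Fin m → k)) ℂ :=
  Matrix.of fun w y => ψ (dot w.1.1 y.2) * ∑ u : Fin m → k,
      F (((c₀ : k) * ((w.2 : k) ^ 2 + (y.1 : k) ^ 2) - QW c u) / ((w.2 : k) * (y.1 : k))) *
        ψ (dot w.1.1 u)

private theorem zeros_lowM_eq (c : Fin m → kˣ) (c₀ : kˣ) (ψ : AddChar k ℂ) (F : k → ℂ) :
    lowM c c₀ ψ F = zerosP c ψ * zerosQ c c₀ ψ F := by
  ext x y
  rw [Matrix.mul_apply, Fintype.sum_prod_type]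
  have h1 : ∀ z : ZQ c, ∑ t : kˣ, zerosP c ψ x (z, t) * zerosQ c c₀ ψ F (z, t) y =
      ψ (-dot z.1 (x.2 - y.2)) * ∑ w : Fin m → k,
        F (((c₀ : k) * ((x.1 : k) ^ 2 + (y.1 : k) ^ 2) - QW c w) / ((x.1 : k) * (y.1 : k))) *
          ψ (dot z.1 w) := by
    intro z
    rw [Finset.sum_eq_single x.1]
    · simp only [zerosP, zerosQ, Matrix.of_apply, if_true]
      rw [← mul_assoc, ← AddChar.map_add_eq_mul, dot_sub']
      congr 2
      ring
    · intro t _ ht
      simp only [zerosP, Matrix.of_apply]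
      rw [if_neg (Ne.symm ht), zero_mul]
    · intro h
      exact absurd (Finset.mem_univ _) h
  rw [Finset.sum_congr rfl fun z _ => h1 z]
  rw [← Finset.sum_subtype (Finset.univ.filter fun ξ : Fin m → k => Qs c ξ = 0) (by simp)
    (fun ξ : Fin m → k => ψ (-dot ξ (x.2 - y.2)) * ∑ w : Fin m → k,
        F (((c₀ : k) * ((x.1 : k) ^ 2 + (y.1 : k) ^ 2) - QW c w) / ((x.1 : k) * (y.1 : k))) *
          ψ (dot ξ w))]
  rw [Finset.sum_filter]
  simp only [lowM, Matrix.of_apply]

/-- `lowM` factors through `{ξ : Qs ξ = 0} × kˣ`. -/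
theorem lowM_dec (hk : ringChar k ≠ 2) (hm : 1 ≤ m) (c : Fin m → kˣ) (c₀ : kˣ) (ψ : AddChar k ℂ)
    (F : k → ℂ) : RDec (lowM c c₀ ψ F) (2 * (Fintype.card k : ℝ) ^ m) 0 := by
  rw [zeros_lowM_eq]
  refine (rdec_factor (zerosP c ψ) (zerosQ c c₀ ψ F)).mono ?_ le_rfl
  have h2 : Fintype.card kˣ ≤ Fintype.card k :=
    Fintype.card_le_of_injective (fun u : kˣ => (u : k)) fun _ _ h => Units.ext h
  have h3 : Fintype.card (ZQ c) ≤ 2 * Fintype.card k ^ (m - 1) := by
    rw [Fintype.card_subtype]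
    exact card_Qs hk hm c
  have h4 : Fintype.card (ZQ c × kˣ) ≤ 2 * Fintype.card k ^ m := by
    rw [Fintype.card_prod]
    calc Fintype.card (ZQ c) * Fintype.card kˣ
        ≤ (2 * Fintype.card k ^ (m - 1)) * Fintype.card k := Nat.mul_le_mul h3 h2
      _ = 2 * Fintype.card k ^ m := by
          obtain ⟨n, rfl⟩ : ∃ n, m = n + 1 := ⟨m - 1, by omega⟩
          rw [Nat.add_sub_cancel, pow_succ]
          ring
  exact_mod_cast h4

end MP0775d3.Quadric
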