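import Pool.Agent.Lib.MP_0775d3_lc.Quadric.Gauss
import Pool.Agent.Lib.MP_0775d3_lc.Quadric.Zeros
import Pool.Agent.Lib.MP_0775d3_lc.Quadric.TorEq
import Pool.Agent.Lib.MP_0775d3_lc.Quadric.TorAB
import Pool.Agent.Lib.MP_0775d3_lc.Quadric.TorC
import Pool.Agent.Lib.MP_0775d3_lc.Sl2.Inversion

/-! The kernel on the big cell: `qker F = q^(-m) lowM F + (lam / (2 q^m)) χ(a) χ(b)
(torM split F' - torM nonsplit F')`. -/

set_option linter.unusedSectionVars false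

namespace MP0775d3.Quadric

open Matrix MP0775d3.Sl2

private theorem torM_dec' (m : ℕ) (δ : ℝ) (hδ : 0 < δ) (hδ1 : δ ≤ 1) :
    ∃ γ : ℝ, 0 < γ ∧ γ ≤ 1 ∧ ∃ C : ℝ, 1 ≤ C ∧
    ∀ (k : Type) [Field k] [Fintype k] [DecidableEq k] (c : Fin m → kˣ) (c₀ : kˣ) (Q : QData k)
      (_ : ∀ t s : k, Q.cnt t s ≤ 2) (ψ : AddChar k ℂ) (F : k → ℂ),
      RDec (torM c c₀ Q ψ F) (C * ((Fintype.card k : ℝ) ^ (m + 1) * (Fintype.card k : ℝ) ^ (-γ)))
        (C * (Fintype.card k : ℝ) ^ δ) := by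
  have h3 : 0 < δ / 3 := by linarith
  have h31 : δ / 3 ≤ 1 := by linarith
  obtain ⟨γa, ha0, ha1, Ca, hCa, hA⟩ := torA_dec m (δ / 3) h3 h31
  obtain ⟨γb, hb0, hb1, Cb, hCb, hB⟩ := torB_dec m (δ / 3) h3 h31
  obtain ⟨γc, hc0, hc1, Cc, hCc, hC⟩ := torC_dec m (δ / 3) h3 h31
  have hab : 1 ≤ Ca * Cb := one_le_mul_of_one_le_of_one_le hCa hCb
  have hacb : 1 ≤ Ca * Cc * Cb := one_le_mul_of_one_le_of_one_le
    (one_le_mul_of_one_le_of_one_le hCa hCc) hCb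
  refine ⟨min γa (min γb γc), lt_min ha0 (lt_min hb0 hc0), (min_le_left _ _).trans ha1,
    3 * (Ca * Cc * Cb), by linarith, ?_⟩
  intro k _ _ _ c c₀ Q hcnt ψ F
  have hq2 : (1 : ℝ) < Fintype.card k := by exact_mod_cast Fintype.one_lt_card
  have hq1 : (1 : ℝ) ≤ Fintype.card k := by linarith
  have hq0 : (0 : ℝ) < Fintype.card k := by linarith
  have hB0 : 0 ≤ (Fintype.card k : ℝ) ^ (m + 1) := by positivity
  have hdec := RDec.mul (mul_nonneg (mul_nonneg (by linarith : (0 : ℝ) ≤ Ca)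
      (Real.rpow_nonneg hq0.le (δ / 3))) (mul_nonneg (by linarith : (0 : ℝ) ≤ Cc)
      (Real.rpow_nonneg hq0.le (δ / 3)))) (mul_nonneg (by linarith : (0 : ℝ) ≤ Cb)
      (Real.rpow_nonneg hq0.le (δ / 3)))
    (RDec.mul (mul_nonneg (by linarith : (0 : ℝ) ≤ Ca) (Real.rpow_nonneg hq0.le (δ / 3)))
      (mul_nonneg (by linarith : (0 : ℝ) ≤ Cc) (Real.rpow_nonneg hq0.le (δ / 3)))
      (hA k c c₀ Q hcnt ψ) (hC k c c₀ Q hcnt F)) (hB k c c₀ Q hcnt ψ)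
  rw [← torM_eq] at hdec
  have hexp : ∀ γ' : ℝ, min γa (min γb γc) ≤ γ' →
      (Fintype.card k : ℝ) ^ (m + 1) * (Fintype.card k : ℝ) ^ (-γ') ≤
        (Fintype.card k : ℝ) ^ (m + 1) * (Fintype.card k : ℝ) ^ (-(min γa (min γb γc))) := by
    intro γ' h
    exact mul_le_mul_of_nonneg_left
      (Real.rpow_le_rpow_of_exponent_le hq1 (neg_le_neg h)) hB0
  set P : ℝ := (Fintype.card k : ℝ) ^ (m + 1) *
    (Fintype.card k : ℝ) ^ (-(min γa (min γb γc))) with hP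
  have hP0 : 0 ≤ P := mul_nonneg hB0 (Real.rpow_nonneg hq0.le _)
  refine hdec.mono ?_ ?_
  · have e1 := hexp γa (min_le_left _ _)
    have e2 := hexp γb ((min_le_right _ _).trans (min_le_left _ _))
    have e3 := hexp γc ((min_le_right _ _).trans (min_le_right _ _))
    have f1 : Ca * ((Fintype.card k : ℝ) ^ (m + 1) * (Fintype.card k : ℝ) ^ (-γa)) ≤
        (Ca * Cc * Cb) * P := by
      refine mul_le_mul ?_ e1 (mul_nonneg hB0 (Real.rpow_nonneg hq0.le _)) (by linarith)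
      have : 1 ≤ Cc * Cb := one_le_mul_of_one_le_of_one_le hCc hCb
      nlinarith
    have f2 : Cb * ((Fintype.card k : ℝ) ^ (m + 1) * (Fintype.card k : ℝ) ^ (-γb)) ≤
        (Ca * Cc * Cb) * P := by
      refine mul_le_mul ?_ e2 (mul_nonneg hB0 (Real.rpow_nonneg hq0.le _)) (by linarith)
      have : 1 ≤ Ca * Cc := one_le_mul_of_one_le_of_one_le hCa hCc
      nlinarith
    have f3 : Cc * ((Fintype.card k : ℝ) ^ (m + 1) * (Fintype.card k : ℝ) ^ (-γc)) ≤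
        (Ca * Cc * Cb) * P := by
      refine mul_le_mul ?_ e3 (mul_nonneg hB0 (Real.rpow_nonneg hq0.le _)) (by linarith)
      nlinarith
    linarith
  · have hpow : (Fintype.card k : ℝ) ^ (δ / 3) * (Fintype.card k : ℝ) ^ (δ / 3) *
        (Fintype.card k : ℝ) ^ (δ / 3) = (Fintype.card k : ℝ) ^ δ := by
      rw [← Real.rpow_add hq0, ← Real.rpow_add hq0]
      congr 1
      ring
    have hδq : 0 ≤ (Fintype.card k : ℝ) ^ δ := Real.rpow_nonneg hq0.le _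
    calc Ca * (Fintype.card k : ℝ) ^ (δ / 3) * (Cc * (Fintype.card k : ℝ) ^ (δ / 3)) *
          (Cb * (Fintype.card k : ℝ) ^ (δ / 3))
        = (Ca * Cc * Cb) * ((Fintype.card k : ℝ) ^ (δ / 3) * (Fintype.card k : ℝ) ^ (δ / 3) *
          (Fintype.card k : ℝ) ^ (δ / 3)) := by ring
      _ = (Ca * Cc * Cb) * (Fintype.card k : ℝ) ^ δ := by rw [hpow]
      _ ≤ 3 * (Ca * Cc * Cb) * (Fintype.card k : ℝ) ^ δ := by
          refine mul_le_mul_of_nonneg_right ?_ hδq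
          linarith

private theorem qker_eq {k : Type} [Field k] [Fintype k] [DecidableEq k] {m : ℕ}
    (c : Fin m → kˣ) (c₀ : kˣ) (F : k → ℂ) (Q : QData k)
    (hc : ∀ t m : k, (splitQ k).cnt t m + Q.cnt t m = 2) (hQ : ∀ w : Q.E, Q.nm w = 0 → w = 0)
    (ψ : AddChar k ℂ) (hψ : ψ ≠ 1) (lam : ℂ) (χ : kˣ → ℂ) (F' : k → ℂ)
    (hF : ∀ (c₀ a b : kˣ) (ξ : Fin m → k), Qs c ξ ≠ 0 →
      ∑ w : Fin m → k, F (((c₀ : k) * ((a : k) ^ 2 + (b : k) ^ 2) - QW c w) /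
          ((a : k) * (b : k))) * ψ (dot ξ w) =
        lam * χ a * χ b * ∑ p : k, ∑ r : k,
          F' ((c₀ * a ^ 2 + c₀ * b ^ 2 - p * r) / (a * b)) * ψ (Qs c ξ * p + 1 * r)) :
    qker c c₀ F = ((Fintype.card k : ℂ) ^ m)⁻¹ • lowM c c₀ ψ F +
      ((Matrix.of fun x y : kˣ × (Fin m → k) =>
          (((2 * (Fintype.card k : ℂ) ^ m)⁻¹ * lam) * χ x.1) * torM c c₀ (splitQ k) ψ F' x y *
            χ y.1) +
        (Matrix.of fun x y : kˣ × (Fin m → k) =>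
          ((-((2 * (Fintype.card k : ℂ) ^ m)⁻¹ * lam)) * χ x.1) * torM c c₀ Q ψ F' x y *
            χ y.1)) := by
  ext x y
  obtain ⟨a, u⟩ := x
  obtain ⟨b, v⟩ := y
  have hq : (Fintype.card k : ℂ) ^ m ≠ 0 := pow_ne_zero _ (by exact_mod_cast Fintype.card_ne_zero)
  have hinv := inversion ψ hψ (fun w => F (((c₀ : k) * ((a : k) ^ 2 + (b : k) ^ 2) - QW c w) /
    ((a : k) * (b : k)))) (u - v)
  have hterm : ∀ ξ : Fin m → k, ψ (-dot ξ (u - v)) * ∑ w : Fin m → k,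
      F (((c₀ : k) * ((a : k) ^ 2 + (b : k) ^ 2) - QW c w) / ((a : k) * (b : k))) *
        ψ (dot ξ w) =
      (if Qs c ξ = 0 then ψ (-dot ξ (u - v)) * ∑ w : Fin m → k,
        F (((c₀ : k) * ((a : k) ^ 2 + (b : k) ^ 2) - QW c w) / ((a : k) * (b : k))) *
          ψ (dot ξ w) else 0) +
      (2⁻¹ * (lam * χ a * χ b)) *
        ((if h : Qs c ξ ≠ 0 then
          ψ (-dot ξ (u - v)) * (splitQ k).dbl ψ F' (Units.mk0 (Qs c ξ) h) c₀ c₀ a b else 0) -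
        (if h : Qs c ξ ≠ 0 then
          ψ (-dot ξ (u - v)) * Q.dbl ψ F' (Units.mk0 (Qs c ξ) h) c₀ c₀ a b else 0)) := by
    intro ξ
    by_cases h : Qs c ξ = 0
    · rw [if_pos h, dif_neg (not_not.2 h), dif_neg (not_not.2 h), sub_zero, mul_zero, add_zero]
    · rw [if_neg h, dif_pos h, dif_pos h, zero_add, hF c₀ a b ξ h]
      have hcore := core Q hc hQ ψ hψ F' (Units.mk0 (Qs c ξ) h) 1 c₀ c₀ a b
      rw [mul_one, Units.val_mk0, Units.val_one] at hcore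
      linear_combination (2⁻¹ * ψ (-dot ξ (u - v)) * (lam * χ a * χ b)) * hcore
  replace hinv := hinv.trans (Finset.sum_congr rfl fun ξ _ => hterm ξ)
  rw [Finset.sum_add_distrib, ← Finset.mul_sum, Finset.sum_sub_distrib] at hinv
  have hker : qker c c₀ F (a, u) (b, v) =
      F (((c₀ : k) * ((a : k) ^ 2 + (b : k) ^ 2) - QW c (u - v)) / ((a : k) * (b : k))) := rfl
  have hlow : lowM c c₀ ψ F (a, u) (b, v) = ∑ ξ : Fin m → k, if Qs c ξ = 0 then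
    ψ (-dot ξ (u - v)) * ∑ w : Fin m → k,
      F (((c₀ : k) * ((a : k) ^ 2 + (b : k) ^ 2) - QW c w) / ((a : k) * (b : k))) *
        ψ (dot ξ w) else 0 := rfl
  have htor : ∀ R : QData k, torM c c₀ R ψ F' (a, u) (b, v) = ∑ ξ : Fin m → k,
    if h : Qs c ξ ≠ 0 then
      ψ (-dot ξ (u - v)) * R.dbl ψ F' (Units.mk0 (Qs c ξ) h) c₀ c₀ a b else 0 := fun R => rfl
  simp only [Matrix.add_apply, Matrix.smul_apply, smul_eq_mul, Matrix.of_apply]
  rw [← hlow, ← htor, ← htor, ← hker] at hinv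
  field_simp
  linear_combination 2 * hinv

theorem qker_dec (m : ℕ) (hm : 1 ≤ m) (δ : ℝ) (hδ : 0 < δ) (hδ1 : δ ≤ 1) :
    ∃ γ : ℝ, 0 < γ ∧ γ ≤ 1 ∧ ∃ C : ℝ, 1 ≤ C ∧
    ∀ (k : Type) [Field k] [Fintype k] [DecidableEq k] (_ : ringChar k ≠ 2) (c : Fin m → kˣ)
      (c₀ : kˣ) (F : k → ℂ),
      RDec (qker c c₀ F) (C * ((Fintype.card k : ℝ) ^ (m + 1) * (Fintype.card k : ℝ) ^ (-γ)))
        (C * (Fintype.card k : ℝ) ^ δ) := by
  obtain ⟨γ, h0, h1, C, hC, hT⟩ := torM_dec' m δ hδ hδ1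
  refine ⟨γ, h0, h1, 2 * C + 2, by linarith, ?_⟩
  intro k _ _ _ hk c c₀ F
  obtain ⟨ψ, hψ⟩ := exists_char k
  obtain ⟨Q, hc, hQ⟩ := exists_nonsplit k
  obtain ⟨lam, χ, F', hF⟩ := fourier_kernel hk hm c ψ hψ F
  have hq2 : (1 : ℝ) < Fintype.card k := by exact_mod_cast Fintype.one_lt_card
  have hq1 : (1 : ℝ) ≤ Fintype.card k := by linarith
  have hq0 : (0 : ℝ) < Fintype.card k := by linarith
  have hcs : ∀ t m : k, (splitQ k).cnt t m ≤ 2 := fun t m => by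
    have := hc t m
    omega
  have hcq : ∀ t m : k, Q.cnt t m ≤ 2 := fun t m => by
    have := hc t m
    omega
  have hdec := (RDec.smul (lowM_dec hk hm c c₀ ψ F) (((Fintype.card k : ℂ) ^ m)⁻¹)).add
    ((RDec.diag (hT k c c₀ (splitQ k) hcs ψ F')
        (fun x => ((2 * (Fintype.card k : ℂ) ^ m)⁻¹ * lam) * χ x.1) (fun y => χ y.1)).add
      (RDec.diag (hT k c c₀ Q hcq ψ F')
        (fun x => (-((2 * (Fintype.card k : ℂ) ^ m)⁻¹ * lam)) * χ x.1) (fun y => χ y.1)))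
  rw [← qker_eq c c₀ F Q hc hQ ψ hψ lam χ F' hF] at hdec
  refine hdec.mono ?_ ?_
  · have e1 : (Fintype.card k : ℝ) ^ m ≤
        (Fintype.card k : ℝ) ^ (m + 1) * (Fintype.card k : ℝ) ^ (-γ) := by
      have e2 : (Fintype.card k : ℝ) ^ (-1 : ℝ) ≤ (Fintype.card k : ℝ) ^ (-γ) :=
        Real.rpow_le_rpow_of_exponent_le hq1 (neg_le_neg h1)
      have e3 : (Fintype.card k : ℝ) ^ m =
          (Fintype.card k : ℝ) ^ (m + 1) * (Fintype.card k : ℝ) ^ (-1 : ℝ) := by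
        rw [Real.rpow_neg_one, pow_succ]
        field_simp
      rw [e3]
      exact mul_le_mul_of_nonneg_left e2 (by positivity)
    linarith
  · have hδq : 0 ≤ (Fintype.card k : ℝ) ^ δ := Real.rpow_nonneg hq0.le _
    linarith

end MP0775d3.Quadric
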