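import Mathlib

/-! Nondegenerate quadratic forms in at least three variables over a finite field of odd
characteristic: splitting off a hyperbolic plane. -/

set_option linter.unusedSectionVars false

namespace MP0775d3.Quadric

section aux

variable {k : Type} [Field k] [Fintype k] {V : Type} [AddCommGroup V] [Module k V]

omit [Fintype k] in
theorem separatingLeft_associated [Invertible (2 : k)] (Q : QuadraticForm k V)
    (hQ : ∀ x, (∀ y, QuadraticMap.polar Q x y = 0) → x = 0) :
    (QuadraticMap.associated (R := k) Q).SeparatingLeft := by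
  intro x hx
  apply hQ
  intro y
  have := hx y
  rw [QuadraticMap.associated_apply] at this
  have h2 : (⅟2 : Module.End k k) (Q (x + y) - Q x - Q y) = 0 := this
  rw [QuadraticMap.polar]
  have h3 : (2 : Module.End k k) * ⅟2 = 1 := mul_invOf_self 2
  calc Q (x + y) - Q x - Q y = (1 : Module.End k k) (Q (x + y) - Q x - Q y) := rfl
    _ = (2 : Module.End k k) ((⅟2 : Module.End k k) (Q (x + y) - Q x - Q y)) := by
        rw [← h3]; rfl
    _ = 0 := by rw [h2, map_zero]

/-- an isotropic vector -/
theorem exists_isotropic (hk : ringChar k ≠ 2) [FiniteDimensional k V] (Q : QuadraticForm k V)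
    (hQ : ∀ x, (∀ y, QuadraticMap.polar Q x y = 0) → x = 0) (hd3 : 3 ≤ Module.finrank k V) :
    ∃ v : V, v ≠ 0 ∧ Q v = 0 := by
  classical
  have h2 : (2 : k) ≠ 0 := Ring.two_ne_zero hk
  let _ : Invertible (2 : k) := invertibleOfNonzero h2
  obtain ⟨w, ⟨e⟩⟩ := Q.equivalent_weightedSumSquares_units_of_nondegenerate'
    (separatingLeft_associated Q hQ)
  let i0 : Fin (Module.finrank k V) := ⟨0, by omega⟩
  let i1 : Fin (Module.finrank k V) := ⟨1, by omega⟩
  let i2 : Fin (Module.finrank k V) := ⟨2, by omega⟩
  have h01 : i0 ≠ i1 := by simp [i0, i1, Fin.ext_iff]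
  have h02 : i0 ≠ i2 := by simp [i0, i2, Fin.ext_iff]
  have h12 : i1 ≠ i2 := by simp [i1, i2, Fin.ext_iff]
  have hcard : Fintype.card k % 2 = 1 := FiniteField.odd_card_of_char_ne_two hk
  obtain ⟨a, b, hab⟩ := FiniteField.exists_root_sum_quadratic (R := k)
    (f := Polynomial.C (w i0 : k) * Polynomial.X ^ 2)
    (g := Polynomial.C (w i1 : k) * Polynomial.X ^ 2 + Polynomial.C (w i2 : k))
    (Polynomial.degree_C_mul_X_pow 2 (w i0).ne_zero)
    (by
      rw [Polynomial.degree_add_eq_left_of_degree_lt]
      · exact Polynomial.degree_C_mul_X_pow 2 (w i1).ne_zero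
      · rw [Polynomial.degree_C_mul_X_pow 2 (w i1).ne_zero]
        exact lt_of_le_of_lt Polynomial.degree_C_le (by norm_num)) hcard
  simp only [Polynomial.eval_mul, Polynomial.eval_C, Polynomial.eval_pow, Polynomial.eval_X,
    Polynomial.eval_add] at hab
  let y : Fin (Module.finrank k V) → k := fun i => if i = i0 then a else if i = i1 then b else if i = i2 then 1 else 0
  have hy0 : y i0 = a := by simp [y]
  have hy1 : y i1 = b := by simp [y, h01.symm]
  have hy2 : y i2 = 1 := by simp [y, h02.symm, h12.symm]
  have hyo : ∀ i, i ≠ i0 → i ≠ i1 → i ≠ i2 → y i = 0 := by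
    intro i h0 h1 h2; simp [y, h0, h1, h2]
  refine ⟨e.symm y, ?_, ?_⟩
  · intro h0
    have : y = 0 := by
      have := congrArg e h0
      rw [map_zero] at this
      rw [← this]
      exact (e.apply_symm_apply y).symm
    rw [this] at hy2
    simp at hy2
  · rw [← e.map_app]
    have : e (e.symm y) = y := e.apply_symm_apply y
    rw [this, QuadraticMap.weightedSumSquares_apply]
    have hsum : ∑ i, w i • (y i * y i) = ∑ i ∈ ({i0, i1, i2} : Finset (Fin (Module.finrank k V))), w i • (y i * y i) := by
      symm
      apply Finset.sum_subset (Finset.subset_univ _)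
      intro i _ hi
      simp only [Finset.mem_insert, Finset.mem_singleton, not_or] at hi
      rw [hyo i hi.1 hi.2.1 hi.2.2]
      simp
    rw [hsum, Finset.sum_insert (by simp [h01, h02]), Finset.sum_insert (by simp [h12]),
      Finset.sum_singleton, hy0, hy1, hy2]
    simp only [Units.smul_def, smul_eq_mul]
    linear_combination hab

end aux

/-- An isotropic vector exists in dimension at least three (diagonalise, then
`FiniteField.exists_root_sum_quadratic`); it lies in a hyperbolic plane; the orthogonal complement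
is diagonalised by `QuadraticForm.equivalent_weightedSumSquares_units_of_nondegenerate'`. -/
theorem normal_form {k : Type} [Field k] [Fintype k] (hk : ringChar k ≠ 2) {V : Type}
    [AddCommGroup V] [Module k V] [FiniteDimensional k V] (Q : QuadraticForm k V)
    (hQ : Q.polarBilin.Nondegenerate) (d : ℕ) (hd : Module.finrank k V = d) (hd3 : 3 ≤ d) :
    ∃ (m : ℕ) (_ : m + 2 = d) (c : Fin m → kˣ) (e : V ≃ₗ[k] (k × k × (Fin m → k))),
      ∀ x, Q x = (e x).1 * (e x).2.1 + ∑ i, (c i : k) * (e x).2.2 i ^ 2 := by
  classical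
  have h2 : (2 : k) ≠ 0 := Ring.two_ne_zero hk
  let _ : Invertible (2 : k) := invertibleOfNonzero h2
  have hnd : ∀ x, (∀ y, QuadraticMap.polar Q x y = 0) → x = 0 := by
    intro x hx
    exact hQ.1 x hx
  obtain ⟨v, hv0, hv⟩ := exists_isotropic hk Q hnd (by omega)
  have hex : ∃ u, QuadraticMap.polar Q v u ≠ 0 := by
    by_contra h
    push Not at h
    exact hv0 (hnd v h)
  obtain ⟨u0, hu0⟩ := hex
  set B := Q.polarBilin with hB
  have hBapp : ∀ x y, B x y = QuadraticMap.polar Q x y := fun x y => rfl
  have hBsymm : ∀ x y, B x y = B y x := fun x y => QuadraticMap.polar_comm Q x y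
  have hQadd : ∀ x y, Q (x + y) = Q x + Q y + B x y := fun x y => by
    rw [hBapp, QuadraticMap.polar]; ring
  have hBself : ∀ x, B x x = 2 * Q x := fun x => by
    rw [hBapp, QuadraticMap.polar_self]; simp
  have hQsmul : ∀ (a : k) x, Q (a • x) = a * a * Q x := fun a x => by
    rw [QuadraticMap.map_smul]; simp
  have hu0' : B v u0 ≠ 0 := hu0
  obtain ⟨u1, hu1⟩ : ∃ u1, B v u1 = 1 := by
    refine ⟨(B v u0)⁻¹ • u0, ?_⟩
    rw [map_smul, smul_eq_mul]
    exact inv_mul_cancel₀ hu0'
  let u : V := u1 + (-Q u1) • v
  have hvv : B v v = 0 := by rw [hBself, hv, mul_zero]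
  have hvu : B v u = 1 := by
    simp only [u, map_add, map_smul, smul_eq_mul, hvv, hu1]; ring
  have hQu : Q u = 0 := by
    change Q (u1 + (-Q u1) • v) = 0
    rw [hQadd u1 ((-Q u1) • v), hQsmul (-Q u1) v, hv, (B u1).map_smul, hBsymm u1 v, hu1]
    simp
  have huu : B u u = 0 := by rw [hBself, hQu, mul_zero]
  have huv : B u v = 1 := by rw [hBsymm, hvu]
  -- the orthogonal complement
  let W : Submodule k V := LinearMap.ker (B v) ⊓ LinearMap.ker (B u)
  have hWmem : ∀ x, x ∈ W ↔ B v x = 0 ∧ B u x = 0 := fun x => by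
    simp [W, Submodule.mem_inf, LinearMap.mem_ker]
  have hproj : ∀ x, x - (B u x) • v - (B v x) • u ∈ W := by
    intro x
    rw [hWmem]
    constructor
    · simp only [map_sub, map_smul, smul_eq_mul, hvv, hvu]; ring
    · simp only [map_sub, map_smul, smul_eq_mul, huu, huv]; ring
  let e0 : V ≃ₗ[k] (k × k × W) :=
    { toFun := fun x => (B u x, B v x, ⟨x - (B u x) • v - (B v x) • u, hproj x⟩)
      map_add' := by
        intro x y
        refine Prod.ext (by simp) (Prod.ext (by simp) (Subtype.ext ?_))
        simp only [map_add, Submodule.coe_add, Prod.snd_add, add_smul]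
        abel
      map_smul' := by
        intro a x
        refine Prod.ext (by simp) (Prod.ext (by simp) (Subtype.ext ?_))
        simp only [map_smul, RingHom.id_apply, Prod.smul_snd, Submodule.coe_smul, smul_eq_mul,
          smul_sub, smul_smul]
      invFun := fun t => t.1 • v + t.2.1 • u + (t.2.2 : V)
      left_inv := by
        intro x
        simp only
        abel
      right_inv := by
        rintro ⟨a, b, ⟨w, hw⟩⟩
        obtain ⟨hw1, hw2⟩ := (hWmem w).1 hw
        have ha : B u (a • v + b • u + w) = a := by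
          simp only [map_add, map_smul, smul_eq_mul, huu, huv, hw2]; ring
        have hb : B v (a • v + b • u + w) = b := by
          simp only [map_add, map_smul, smul_eq_mul, hvv, hvu, hw1]; ring
        refine Prod.ext ha (Prod.ext hb (Subtype.ext ?_))
        simp only [ha, hb]
        abel }
  have he0 : ∀ x, e0 x = (B u x, B v x, ⟨x - (B u x) • v - (B v x) • u, hproj x⟩) := fun x => rfl
  -- nondegeneracy on the complement
  let QW : QuadraticForm k W := Q.comp W.subtype
  have hQW : ∀ w : W, QW w = Q w := fun w => rfl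
  have hndW : ∀ x : W, (∀ y, QuadraticMap.polar QW x y = 0) → x = 0 := by
    intro x hx
    apply Subtype.ext
    apply hnd
    intro y
    obtain ⟨hx1, hx2⟩ := (hWmem x).1 x.2
    have hdec : y = (B u y) • v + (B v y) • u + (y - (B u y) • v - (B v y) • u) := by abel
    have h3 : B x (y - (B u y) • v - (B v y) • u) = 0 := hx ⟨_, hproj y⟩
    change B x y = 0
    rw [hdec, map_add, map_add, h3, map_smul, map_smul, hBsymm x v, hBsymm x u, hx1, hx2]
    simp
  obtain ⟨c, ⟨eW⟩⟩ := QW.equivalent_weightedSumSquares_units_of_nondegenerate'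
    (separatingLeft_associated QW hndW)
  have hdim : Module.finrank k V = 1 + (1 + Module.finrank k W) := by
    rw [e0.finrank_eq, Module.finrank_prod, Module.finrank_prod, Module.finrank_self]
  refine ⟨Module.finrank k W, by omega, c, e0.trans
    (LinearEquiv.prodCongr (LinearEquiv.refl k k)
      (LinearEquiv.prodCongr (LinearEquiv.refl k k) eW.toLinearEquiv)), ?_⟩
  intro x
  have hx : x = ((B u x) • v + (B v x) • u) + (x - (B u x) • v - (B v x) • u) := by abel
  obtain ⟨hw1, hw2⟩ := (hWmem _).1 (hproj x)
  have h1 : Q x = (B u x) * (B v x) + Q (x - (B u x) • v - (B v x) • u) := by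
    conv_lhs => rw [hx]
    rw [hQadd, hQadd, hQsmul, hQsmul, hv, hQu]
    have hB1 : B ((B u x) • v) ((B v x) • u) = (B u x) * (B v x) := by
      simp only [map_smul, LinearMap.smul_apply, smul_eq_mul, hvu]; ring
    have hB2 : B ((B u x) • v + (B v x) • u) (x - (B u x) • v - (B v x) • u) = 0 := by
      rw [map_add, LinearMap.add_apply, map_smul, map_smul, LinearMap.smul_apply,
        LinearMap.smul_apply, hw1, hw2]
      simp
    rw [hB1, hB2]; ring
  rw [h1]
  have h4 : Q (x - (B u x) • v - (B v x) • u) =
      ∑ i, (c i : k) * (eW ⟨_, hproj x⟩) i ^ 2 := by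
    have h5 := eW.map_app ⟨_, hproj x⟩
    rw [QuadraticMap.weightedSumSquares_apply] at h5
    rw [hQW] at h5
    rw [← h5]
    apply Finset.sum_congr rfl
    intro i _
    rw [Units.smul_def, smul_eq_mul]
    ring
  rw [h4]
  rfl

end MP0775d3.Quadric
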