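import Pool.Agent.Lib.MP_0775d3_lc.Sl2.Core
import Pool.Agent.Lib.MP_0775d3_lc.Sl2.Rect

/-! Kernels `F (B(x, y))` on quadrics `{Q = c₀}`, `Q = x₀ x₁ + ∑ cᵢ wᵢ²`, in the coordinates
`a = 1 / x₁`, `w / x₁` of the big cell. -/

set_option linter.unusedSectionVars false

namespace MP0775d3.Quadric

open Matrix MP0775d3.Sl2

variable {k : Type} [Field k] [Fintype k] [DecidableEq k] {m : ℕ}

/-- The form `∑ cᵢ wᵢ²`. -/
def QW (c : Fin m → kˣ) (w : Fin m → k) : k := ∑ i, (c i : k) * w i ^ 2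

/-- The dual form `∑ ξᵢ² / (4 cᵢ)`. -/
def Qs (c : Fin m → kˣ) (ξ : Fin m → k) : k := ∑ i, ξ i ^ 2 / (4 * (c i : k))

/-- The scalar product. -/
def dot (ξ w : Fin m → k) : k := ∑ i, ξ i * w i

/-- The kernel on the big cell. -/
noncomputable def qker (c : Fin m → kˣ) (c₀ : kˣ) (F : k → ℂ) :
    Matrix (kˣ × (Fin m → k)) (kˣ × (Fin m → k)) ℂ :=
  Matrix.of fun x y => F (((c₀ : k) * ((x.1 : k) ^ 2 + (y.1 : k) ^ 2) - QW c (x.2 - y.2)) /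
    ((x.1 : k) * (y.1 : k)))

/-- The contribution of one quadratic algebra. -/
noncomputable def torM (c : Fin m → kˣ) (c₀ : kˣ) (Q : QData k) (ψ : AddChar k ℂ) (F : k → ℂ) :
    Matrix (kˣ × (Fin m → k)) (kˣ × (Fin m → k)) ℂ :=
  Matrix.of fun x y => ∑ ξ : Fin m → k, if h : Qs c ξ ≠ 0 then
    ψ (-dot ξ (x.2 - y.2)) * Q.dbl ψ F (Units.mk0 (Qs c ξ) h) c₀ c₀ x.1 y.1 else 0

/-- The inner index set. -/
abbrev Inner (c : Fin m → kˣ) (c₀ : kˣ) (Q : QData k) : Type :=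
  {z : (Fin m → k) × Q.Eˣ // Q.nm (z.2 : Q.E) = Qs c z.1 * (c₀ : k)}

noncomputable def torA (c : Fin m → kˣ) (c₀ : kˣ) (Q : QData k) (ψ : AddChar k ℂ) :
    Matrix (kˣ × (Fin m → k)) (Inner c c₀ Q) ℂ :=
  Matrix.of fun x z => ψ (-dot z.1.1 x.2 + x.1 * Q.tr (z.1.2 : Q.E))

noncomputable def torB (c : Fin m → kˣ) (c₀ : kˣ) (Q : QData k) (ψ : AddChar k ℂ) :
    Matrix (Inner c c₀ Q) (kˣ × (Fin m → k)) ℂ :=
  Matrix.of fun z y => ψ (dot z.1.1 y.2 - y.1 * Q.tr (z.1.2 : Q.E))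

noncomputable def torC (c : Fin m → kˣ) (c₀ : kˣ) (Q : QData k) (F : k → ℂ) :
    Matrix (Inner c c₀ Q) (Inner c c₀ Q) ℂ :=
  Matrix.of fun z w => if z.1.1 = w.1.1 then
    F (c₀ * Q.tr ((z.1.2 * w.1.2⁻¹ : Q.Eˣ) : Q.E)) else 0

/-- The terms with `Qs ξ = 0`. -/
noncomputable def lowM (c : Fin m → kˣ) (c₀ : kˣ) (ψ : AddChar k ℂ) (F : k → ℂ) :
    Matrix (kˣ × (Fin m → k)) (kˣ × (Fin m → k)) ℂ :=
  Matrix.of fun x y => ∑ ξ : Fin m → k, if Qs c ξ = 0 then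
    ψ (-dot ξ (x.2 - y.2)) * ∑ w : Fin m → k,
      F (((c₀ : k) * ((x.1 : k) ^ 2 + (y.1 : k) ^ 2) - QW c w) / ((x.1 : k) * (y.1 : k))) *
        ψ (dot ξ w) else 0

end MP0775d3.Quadric
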