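import Pool.Agent.Lib.MP_0775d3_lc.Quadric.Defs
import Pool.Agent.Lib.MP_0775d3_lc.Kron.Invariant

/-! Fourier matrices of `k × k^m`: power saving and inversion. -/

set_option linter.unusedSectionVars false

namespace MP0775d3.Quadric

open Matrix MP0775d3.Sl2 MP0775d3.Kron

section
variable {k : Type} [Field k] (m : ℕ)

/-- the action of `kˣ × (kˣ)^m` on `k × k^m` -/
@[reducible] private def fdAct : MulAction (kˣ × (Fin m → kˣ)) (k × (Fin m → k)) where
  smul g x := ((g.1 : k) * x.1, fun i => (g.2 i : k) * x.2 i)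
  one_smul x := by
    show (((1 : kˣ) : k) * x.1, fun i => ((1 : kˣ) : k) * x.2 i) = x
    simp
  mul_smul g h x := by
    show (((g.1 * h.1 : kˣ) : k) * x.1, fun i => ((g.2 i * h.2 i : kˣ) : k) * x.2 i) =
      ((g.1 : k) * ((h.1 : k) * x.1), fun i => (g.2 i : k) * ((h.2 i : k) * x.2 i))
    simp [mul_assoc]

open Classical in
private theorem fd_orbits [Finite k] : Nat.card (@MulAction.orbitRel.Quotient
    (kˣ × (Fin m → kˣ)) (k × (Fin m → k)) _ (fdAct m)) ≤ 2 ^ (m + 1) := by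
  let _ := @fdAct k _ m
  let e : Bool → k := fun b => if b then 1 else 0
  let f : Bool × (Fin m → Bool) →
      MulAction.orbitRel.Quotient (kˣ × (Fin m → kˣ)) (k × (Fin m → k)) :=
    fun b => Quotient.mk (MulAction.orbitRel (kˣ × (Fin m → kˣ)) (k × (Fin m → k)))
      (e b.1, fun i => e (b.2 i))
  have hone : ∀ x : k, ∃ (g : kˣ) (b : Bool), (g : k) * e b = x := by
    intro x
    by_cases hx : x = 0
    · exact ⟨1, false, by simp [e, hx]⟩
    · exact ⟨Units.mk0 x hx, true, by simp [e]⟩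
  have hf : Function.Surjective f := by
    intro c
    obtain ⟨⟨x, y⟩, rfl⟩ := Quotient.exists_rep c
    obtain ⟨g1, b1, h1⟩ := hone x
    choose g2 b2 h2 using fun i => hone (y i)
    refine ⟨(b1, b2), ?_⟩
    apply Quotient.sound
    show MulAction.orbitRel (kˣ × (Fin m → kˣ)) (k × (Fin m → k)) (e b1, fun i => e (b2 i)) (x, y)
    rw [MulAction.orbitRel_apply]
    refine ⟨(g1⁻¹, fun i => (g2 i)⁻¹), ?_⟩
    show (((g1⁻¹ : kˣ) : k) * x, fun i => (((g2 i)⁻¹ : kˣ) : k) * y i) =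
      (e b1, fun i => e (b2 i))
    rw [← h1]
    refine Prod.ext (by simp) ?_
    funext i
    show (((g2 i)⁻¹ : kˣ) : k) * y i = e (b2 i)
    rw [← h2 i]
    simp
  have h := Nat.card_le_card_of_surjective f hf
  refine h.trans (le_of_eq ?_)
  rw [Nat.card_prod, Nat.card_fun]
  simp
  ring

end

/-- As `fourier_dec` in `Sl2/FourierDec.lean`, with the group `kˣ × (Fin m → kˣ)` acting on
`k × (Fin m → k)`, at most `2 ^ (m + 1)` orbits. -/
theorem fourier_dec (m : ℕ) (δ : ℝ) (hδ : 0 < δ) (hδ1 : δ ≤ 1) :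
    ∃ γ : ℝ, 0 < γ ∧ γ ≤ 1 ∧ ∃ C : ℝ, 1 ≤ C ∧
    ∀ (k : Type) [Field k] [Fintype k] [DecidableEq k] (ψ : k → ℂ),
      RDec (Matrix.of fun x y : k × (Fin m → k) => ψ (x.1 * y.1 + dot x.2 y.2))
        (C * ((Fintype.card k : ℝ) ^ (m + 1) * (Fintype.card k : ℝ) ^ (-γ)))
        (C * (Fintype.card k : ℝ) ^ δ) := by
  have hm : (0 : ℝ) < (m : ℝ) + 1 := by positivity
  have hm1 : (1 : ℝ) ≤ (m : ℝ) + 1 := by linarith [(Nat.cast_nonneg m : (0 : ℝ) ≤ (m : ℝ))]
  obtain ⟨γ₀, hγ₀, C₀, hC₀, hinv⟩ := inv_dec.{0, 0} (δ / (8 * ((m : ℝ) + 1))) (by positivity)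
    (by
      rw [div_le_one (by positivity)]
      linarith)
  set O : ℝ := 2 ^ (m + 1) with hO
  have hO0 : 0 < O := by positivity
  have hO1 : 1 ≤ O := one_le_pow₀ (by norm_num)
  refine ⟨min γ₀ 1, lt_min hγ₀ one_pos, min_le_right _ _, O * C₀ + O, by
    have := mul_pos hO0 hC₀
    linarith, ?_⟩
  intro k _ _ _ ψ
  set γ := min γ₀ 1 with hγ
  have hγ0 : 0 < γ := lt_min hγ₀ one_pos
  have hγ1 : γ ≤ 1 := min_le_right _ _
  let _ := @fdAct k _ m
  have h1 := hinv ℂ (kˣ × (Fin m → kˣ)) (fun g h => mul_comm g h) (k × (Fin m → k))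
    (fun x y => ψ (x.1 * y.1⁻¹ + dot x.2 (fun i => (y.2 i)⁻¹))) (by
      rintro ⟨g1, g2⟩ ⟨x1, x2⟩ ⟨y1, y2⟩
      have h : ∀ (g : kˣ) (x y : k), ((g : k) * x) * ((g : k) * y)⁻¹ = x * y⁻¹ := by
        intro g x y
        rw [mul_inv]
        have hg : (g : k) ≠ 0 := g.ne_zero
        calc (g : k) * x * ((g : k)⁻¹ * y⁻¹) = ((g : k) * (g : k)⁻¹) * (x * y⁻¹) := by ring
          _ = x * y⁻¹ := by rw [mul_inv_cancel₀ hg, one_mul]
      show ψ (((g1 : k) * x1) * ((g1 : k) * y1)⁻¹ +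
        dot (fun i => (g2 i : k) * x2 i) (fun i => ((g2 i : k) * y2 i)⁻¹)) =
        ψ (x1 * y1⁻¹ + dot x2 (fun i => (y2 i)⁻¹))
      have h' : dot (fun i => (g2 i : k) * x2 i) (fun i => ((g2 i : k) * y2 i)⁻¹) =
          dot x2 (fun i => (y2 i)⁻¹) := by
        unfold dot
        exact Finset.sum_congr rfl fun i _ => h _ _ _
      rw [h, h'])
  set q : ℝ := (Fintype.card k : ℝ) with hq
  have hq1 : 1 < q := by
    rw [hq]
    exact_mod_cast Fintype.one_lt_card
  have hq0 : 0 < q := by linarith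
  have hlog : 0 < Real.log q := Real.log_pos hq1
  have horb : (Nat.card (MulAction.orbitRel.Quotient (kˣ × (Fin m → kˣ)) (k × (Fin m → k))) : ℝ) ≤
      O := by
    rw [hO]
    exact_mod_cast fd_orbits (k := k) m
  have hA1 : (1 : ℝ) ≤ (Nat.card (kˣ × (Fin m → kˣ)) : ℝ) := by
    exact_mod_cast Nat.card_pos
  have hA2 : (Nat.card (kˣ × (Fin m → kˣ)) : ℝ) ≤ q ^ (m + 1) := by
    have h2 : Nat.card kˣ ≤ Fintype.card k := by
      rw [← Nat.card_eq_fintype_card (α := k)]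
      exact Nat.card_le_card_of_injective (fun u : kˣ => (u : k)) Units.val_injective
    have h3 : Nat.card (kˣ × (Fin m → kˣ)) ≤ Fintype.card k ^ (m + 1) := by
      rw [Nat.card_prod, Nat.card_fun, Nat.card_eq_fintype_card (α := Fin m), Fintype.card_fin]
      calc Nat.card kˣ * Nat.card kˣ ^ m ≤ Fintype.card k * Fintype.card k ^ m :=
            Nat.mul_le_mul h2 (Nat.pow_le_pow_left h2 m)
        _ = Fintype.card k ^ (m + 1) := by ring
    rw [hq]
    exact_mod_cast h3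
  have hL0 : 0 ≤ Real.log (Nat.card (kˣ × (Fin m → kˣ))) := Real.log_nonneg hA1
  have hL1 : Real.log (Nat.card (kˣ × (Fin m → kˣ))) ≤ ((m : ℝ) + 1) * Real.log q := by
    have := Real.log_le_log (by linarith) hA2
    rwa [Real.log_pow, Nat.cast_add, Nat.cast_one] at this
  have hr : Real.exp ((1 - γ₀) * Real.log (Nat.card (kˣ × (Fin m → kˣ)))) ≤
      q ^ (m + 1) * q ^ (-γ) := by
    have e1 : q ^ (m + 1) * q ^ (-γ) = Real.exp (((m : ℝ) + 1 - γ) * Real.log q) := by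
      rw [← Real.rpow_natCast q (m + 1), ← Real.rpow_add hq0, Real.rpow_def_of_pos hq0]
      congr 1
      push_cast
      ring
    rw [e1]
    apply Real.exp_le_exp.2
    have h2 : (1 - γ₀) * Real.log (Nat.card (kˣ × (Fin m → kˣ))) ≤
        (1 - γ) * Real.log (Nat.card (kˣ × (Fin m → kˣ))) := by
      apply mul_le_mul_of_nonneg_right _ hL0
      have := min_le_left γ₀ 1
      linarith
    have h3 : (1 - γ) * Real.log (Nat.card (kˣ × (Fin m → kˣ))) ≤
        (1 - γ) * (((m : ℝ) + 1) * Real.log q) :=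
      mul_le_mul_of_nonneg_left hL1 (by linarith)
    have h4 := mul_pos hγ0 hlog
    have h5 : 0 ≤ (m : ℝ) * (γ * Real.log q) := mul_nonneg (Nat.cast_nonneg m) h4.le
    linarith [h2, h3, h4, show (1 - γ) * (((m : ℝ) + 1) * Real.log q) =
      ((m : ℝ) + 1 - γ) * Real.log q - (m : ℝ) * (γ * Real.log q) by ring]
  have hs : Real.exp (8 * (δ / (8 * ((m : ℝ) + 1))) *
      Real.log (Nat.card (kˣ × (Fin m → kˣ)))) ≤ q ^ δ := by
    rw [Real.rpow_def_of_pos hq0]
    apply Real.exp_le_exp.2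
    have h2 := mul_le_mul_of_nonneg_left hL1
      (show (0 : ℝ) ≤ 8 * (δ / (8 * ((m : ℝ) + 1))) by positivity)
    have h3 : 8 * (δ / (8 * ((m : ℝ) + 1))) * (((m : ℝ) + 1) * Real.log q) =
        Real.log q * δ := by
      field_simp
    linarith
  have hp1 : 0 ≤ q ^ (m + 1) * q ^ (-γ) := by positivity
  have hp2 : 0 ≤ q ^ δ := by positivity
  let iv : k × (Fin m → k) ≃ k × (Fin m → k) :=
    { toFun := fun y => (y.1⁻¹, fun i => (y.2 i)⁻¹)
      invFun := fun y => (y.1⁻¹, fun i => (y.2 i)⁻¹)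
      left_inv := fun y => by simp
      right_inv := fun y => by simp }
  have h3 := Dec.submatrix_inj₂ h1 (Equiv.refl _) iv (Equiv.injective _) (Equiv.injective _)
  have h4 : (Matrix.of fun x y : k × (Fin m → k) =>
      ψ (x.1 * y.1⁻¹ + dot x.2 (fun i => (y.2 i)⁻¹))).submatrix (Equiv.refl _) iv =
      Matrix.of fun x y : k × (Fin m → k) => ψ (x.1 * y.1 + dot x.2 y.2) := by
    ext x y
    simp [iv]
  rw [h4] at h3
  refine rdec_of_dec (h3.mono ?_ ?_)
  · have e1 := mul_le_mul horb hr (Real.exp_pos _).le hO0.le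
    have e2 := mul_le_mul_of_nonneg_left e1 hC₀.le
    have e3 := mul_nonneg hO0.le hp1
    linarith [e2, hp1, show (O * C₀ + O) * (q ^ (m + 1) * q ^ (-γ)) =
      C₀ * (O * (q ^ (m + 1) * q ^ (-γ))) + O * (q ^ (m + 1) * q ^ (-γ)) by ring]
  · have e1 := mul_le_mul horb hs (Real.exp_pos _).le hO0.le
    have e2 := mul_nonneg (mul_nonneg hO0.le hC₀.le) hp2
    linarith [e1, e2, show (O * C₀ + O) * q ^ δ = O * q ^ δ + O * C₀ * q ^ δ by ring]

private theorem char_sum {k ι : Type*} [AddCommMonoid k] (ψ : AddChar k ℂ) (s : Finset ι)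
    (f : ι → k) : ψ (∑ i ∈ s, f i) = ∏ i ∈ s, ψ (f i) := by
  classical
  induction s using Finset.induction_on with
  | empty => simp
  | insert a s ha ih =>
    rw [Finset.sum_insert ha, Finset.prod_insert ha, AddChar.map_add_eq_mul, ih]

theorem inversion {k : Type} [Field k] [Fintype k] [DecidableEq k] {m : ℕ} (ψ : AddChar k ℂ)
    (hψ : ψ ≠ 1) (g : (Fin m → k) → ℂ) (w₀ : Fin m → k) :
    (Fintype.card k : ℂ) ^ m * g w₀ =
      ∑ ξ : Fin m → k, ψ (-dot ξ w₀) * ∑ w : Fin m → k, g w * ψ (dot ξ w) := by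
  have hp : ψ.IsPrimitive := AddChar.IsPrimitive.of_ne_one hψ
  have h0 : ∀ v : Fin m → k, ∑ ξ : Fin m → k, ψ (dot ξ v) =
      if v = 0 then (Fintype.card k : ℂ) ^ m else 0 := by
    intro v
    have e1 : ∀ ξ : Fin m → k, ψ (dot ξ v) = ∏ i, ψ (ξ i * v i) := by
      intro ξ
      unfold dot
      rw [char_sum]
    simp_rw [e1]
    have e2 := Finset.prod_univ_sum (fun _ : Fin m => (Finset.univ : Finset k))
      (fun i x => ψ (x * v i))
    rw [Fintype.piFinset_univ] at e2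
    rw [← e2]
    simp_rw [AddChar.sum_mulShift _ hp]
    by_cases hv : v = 0
    · rw [if_pos hv]
      subst hv
      simp
    · rw [if_neg hv]
      obtain ⟨i, hi⟩ := Function.ne_iff.1 hv
      refine Finset.prod_eq_zero (Finset.mem_univ i) ?_
      have hi' : v i ≠ 0 := hi
      rw [if_neg hi', Nat.cast_zero]
  have h1 : ∀ ξ : Fin m → k, ψ (-dot ξ w₀) * ∑ w : Fin m → k, g w * ψ (dot ξ w) =
      ∑ w : Fin m → k, g w * ψ (dot ξ (w - w₀)) := by
    intro ξ
    rw [Finset.mul_sum]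
    refine Finset.sum_congr rfl fun w _ => ?_
    rw [mul_left_comm, ← AddChar.map_add_eq_mul]
    congr 2
    unfold dot
    rw [← Finset.sum_neg_distrib, ← Finset.sum_add_distrib]
    refine Finset.sum_congr rfl fun i _ => ?_
    rw [Pi.sub_apply]
    ring
  simp_rw [h1]
  rw [Finset.sum_comm]
  simp_rw [← Finset.mul_sum, h0, sub_eq_zero]
  rw [Finset.sum_eq_single w₀]
  · rw [if_pos rfl]
    ring
  · intro w _ hw
    rw [if_neg hw, mul_zero]
  · intro h
    exact absurd (Finset.mem_univ _) h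

end MP0775d3.Quadric
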