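import Pool.Agent.Lib.MP_0775d3_lc.Quadric.Defs

/-! Gauss sums: the Fourier transform of `w ↦ F ((c₀ (a² + b²) - QW w) / (a b))` at `ξ` with
`Qs ξ ≠ 0` is a Kloosterman kernel, in even and in odd dimension `m`. -/

set_option linter.unusedSectionVars false

namespace MP0775d3.Quadric

open Matrix MP0775d3.Sl2

section aux
variable {k : Type} [Field k] [Fintype k] [DecidableEq k]

private theorem gauss_units (f : k → ℂ) : ∑ t : k, f t = f 0 + ∑ u : kˣ, f u := by
  rw [← Finset.add_sum_erase _ _ (Finset.mem_univ (0 : k))]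
  congr 1
  symm
  refine Finset.sum_bij (fun u _ => (u : k)) ?_ ?_ ?_ ?_
  · intro u _
    simp
  · intro u _ v _ h
    exact Units.ext h
  · intro x hx
    have hx0 : x ≠ 0 := (Finset.mem_erase.mp hx).1
    exact ⟨Units.mk0 x hx0, Finset.mem_univ _, rfl⟩
  · intro u _
    rfl

/-- The quadratic Gauss sum. -/
private noncomputable def gaussG (ψ : AddChar k ℂ) : ℂ :=
  ∑ t : k, (quadraticChar k t : ℂ) * ψ t

private theorem gauss_mul (x y : k) :
    ((quadraticChar k (x * y) : ℤ) : ℂ) = (quadraticChar k x : ℂ) * (quadraticChar k y : ℂ) := by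
  rw [map_mul, Int.cast_mul]

private theorem gauss_sq {s : k} (hs : s ≠ 0) :
    (quadraticChar k s : ℂ) * (quadraticChar k s : ℂ) = 1 := by
  have h := quadraticChar_sq_one hs
  rw [pow_two] at h
  exact_mod_cast h

private theorem gauss_orth {ψ : AddChar k ℂ} (hψ : ψ ≠ 1) (b : k) :
    ∑ x : k, ψ (x * b) = if b = 0 then (Fintype.card k : ℂ) else 0 := by
  rw [AddChar.sum_mulShift b (AddChar.IsPrimitive.of_ne_one hψ)]
  split_ifs <;> simp

private theorem gauss_map {ι : Type} (T : Finset ι) (ψ : AddChar k ℂ) (f : ι → k) :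
    ψ (∑ i ∈ T, f i) = ∏ i ∈ T, ψ (f i) := by
  classical
  induction T using Finset.induction_on with
  | empty => simp
  | insert i T hi ih =>
    rw [Finset.sum_insert hi, Finset.prod_insert hi, AddChar.map_add_eq_mul, ih]

private theorem gauss_shift {ψ : AddChar k ℂ} {s : k} (hs : s ≠ 0) :
    ∑ x : k, (quadraticChar k x : ℂ) * ψ (s * x) = (quadraticChar k s : ℂ) * gaussG ψ := by
  unfold gaussG
  rw [Finset.mul_sum]
  have e := Equiv.sum_comp (Equiv.mulLeft₀ s hs)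
    (fun t => (quadraticChar k s : ℂ) * ((quadraticChar k t : ℂ) * ψ t))
  rw [← e]
  refine Finset.sum_congr rfl fun x _ => ?_
  rw [Equiv.mulLeft₀_apply, gauss_mul, ← mul_assoc, ← mul_assoc, gauss_sq hs, one_mul]

private theorem gauss_one (hk : ringChar k ≠ 2) {ψ : AddChar k ℂ} (hψ : ψ ≠ 1) {s : k}
    (hs : s ≠ 0) : ∑ x : k, ψ (s * x ^ 2) = (quadraticChar k s : ℂ) * gaussG ψ := by
  rw [← gauss_shift (ψ := ψ) hs]
  have h1 : ∑ x : k, ψ (s * x ^ 2) =
      ∑ y : k, ∑ x ∈ Finset.univ.filter (fun x : k => x ^ 2 = y), ψ (s * x ^ 2) :=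
    (Finset.sum_fiberwise Finset.univ (fun x : k => x ^ 2) (fun x => ψ (s * x ^ 2))).symm
  rw [h1]
  have h2 : ∀ y : k, ∑ x ∈ Finset.univ.filter (fun x : k => x ^ 2 = y), ψ (s * x ^ 2) =
      (quadraticChar k y : ℂ) * ψ (s * y) + ψ (s * y) := by
    intro y
    have h3 : ∑ x ∈ Finset.univ.filter (fun x : k => x ^ 2 = y), ψ (s * x ^ 2) =
        ∑ x ∈ Finset.univ.filter (fun x : k => x ^ 2 = y), ψ (s * y) := by
      refine Finset.sum_congr rfl fun x hx => ?_
      rw [(Finset.mem_filter.mp hx).2]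
    rw [h3, Finset.sum_const, nsmul_eq_mul]
    have h4 := quadraticChar_card_sqrts hk y
    have h5 : ({x : k | x ^ 2 = y} : Set k).toFinset =
        Finset.univ.filter (fun x : k => x ^ 2 = y) := by
      ext x
      simp
    rw [h5] at h4
    have h6 : ((Finset.univ.filter (fun x : k => x ^ 2 = y)).card : ℂ) =
        (quadraticChar k y : ℂ) + 1 := by exact_mod_cast h4
    rw [h6]
    ring
  rw [Finset.sum_congr rfl fun y _ => h2 y, Finset.sum_add_distrib]
  have h7 : ∑ y : k, ψ (s * y) = 0 := by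
    have := gauss_orth hψ s
    rw [if_neg hs] at this
    rw [← this]
    exact Finset.sum_congr rfl fun y _ => by rw [mul_comm]
  rw [h7, add_zero]

private theorem gauss_square (hk : ringChar k ≠ 2) {ψ : AddChar k ℂ} (hψ : ψ ≠ 1) {s : k}
    (hs : s ≠ 0) (ξ : k) : ∑ x : k, ψ (s * x ^ 2 + ξ * x) =
      (quadraticChar k s : ℂ) * gaussG ψ * ψ (-(ξ ^ 2 / (4 * s))) := by
  have h2 : (2 : k) ≠ 0 := Ring.two_ne_zero hk
  have h4 : (4 : k) ≠ 0 := by
    have : (4 : k) = 2 * 2 := by norm_num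
    rw [this]
    exact mul_ne_zero h2 h2
  rw [← gauss_one hk hψ hs, Finset.sum_mul]
  have e := Equiv.sum_comp (Equiv.addRight (ξ / (2 * s)))
    (fun x => ψ (s * x ^ 2) * ψ (-(ξ ^ 2 / (4 * s))))
  rw [← e]
  refine Finset.sum_congr rfl fun x _ => ?_
  rw [Equiv.coe_addRight, ← AddChar.map_add_eq_mul]
  congr 1
  field_simp
  ring

private theorem gauss_prod {m : ℕ} (f : Fin m → k → ℂ) :
    ∑ w : Fin m → k, ∏ i, f i (w i) = ∏ i, ∑ x : k, f i x := by
  rw [Finset.prod_univ_sum, Fintype.piFinset_univ]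

private theorem gauss_dot {m : ℕ} {ψ : AddChar k ℂ} (hψ : ψ ≠ 1) {ξ : Fin m → k}
    (hξ : ξ ≠ 0) : ∑ w : Fin m → k, ψ (dot ξ w) = 0 := by
  have h1 : ∀ w : Fin m → k, ψ (dot ξ w) = ∏ i, ψ (ξ i * w i) := by
    intro w
    unfold dot
    rw [gauss_map]
  rw [Finset.sum_congr rfl fun w _ => h1 w, gauss_prod (fun i x => ψ (ξ i * x))]
  obtain ⟨i, hi'⟩ := Function.ne_iff.mp hξ
  have hi : ξ i ≠ 0 := hi'
  refine Finset.prod_eq_zero (Finset.mem_univ i) ?_
  have := gauss_orth hψ (ξ i)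
  rw [if_neg hi] at this
  rw [← this]
  exact Finset.sum_congr rfl fun y _ => by rw [mul_comm]

private theorem gauss_main (hk : ringChar k ≠ 2) {m : ℕ} (c : Fin m → kˣ) {ψ : AddChar k ℂ}
    (hψ : ψ ≠ 1) {t : k} (ξ : Fin m → k) (ht : t ≠ 0) :
    ∑ w : Fin m → k, ψ (t * QW c w + dot ξ w) =
      (quadraticChar k t : ℂ) ^ m * (gaussG ψ ^ m * ∏ i, (quadraticChar k (c i : k) : ℂ)) *
        ψ (-(Qs c ξ / t)) := by
  have h1 : ∀ w : Fin m → k, ψ (t * QW c w + dot ξ w) =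
      ∏ i, ψ (t * (c i : k) * w i ^ 2 + ξ i * w i) := by
    intro w
    rw [← gauss_map, Finset.sum_add_distrib]
    unfold QW dot
    rw [Finset.mul_sum]
    congr 2
    exact Finset.sum_congr rfl fun i _ => by ring
  rw [Finset.sum_congr rfl fun w _ => h1 w,
    gauss_prod (fun i x => ψ (t * (c i : k) * x ^ 2 + ξ i * x))]
  have h2 : ∀ i : Fin m, ∑ x : k, ψ (t * (c i : k) * x ^ 2 + ξ i * x) =
      (quadraticChar k t : ℂ) * (gaussG ψ * (quadraticChar k (c i : k) : ℂ)) *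
        ψ (-(ξ i ^ 2 / (4 * (t * (c i : k))))) := by
    intro i
    rw [gauss_square hk hψ (mul_ne_zero ht (c i).ne_zero), gauss_mul]
    ring
  rw [Finset.prod_congr rfl fun i _ => h2 i, Finset.prod_mul_distrib, Finset.prod_mul_distrib,
    Finset.prod_mul_distrib, Finset.prod_const, Finset.prod_const, Finset.card_univ,
    Fintype.card_fin, ← gauss_map]
  congr 2
  unfold Qs
  rw [Finset.sum_neg_distrib, Finset.sum_div]
  congr 1
  refine Finset.sum_congr rfl fun i _ => ?_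
  rw [div_div]
  congr 1
  ring

private theorem gauss_expand (hk : ringChar k ≠ 2) {m : ℕ} (c : Fin m → kˣ) {ψ : AddChar k ℂ}
    (hψ : ψ ≠ 1) {ξ : Fin m → k} (hξ : ξ ≠ 0) (H : k → ℂ) :
    ∑ w : Fin m → k, H (QW c w) * ψ (dot ξ w) =
      (gaussG ψ ^ m * ∏ i, (quadraticChar k (c i : k) : ℂ)) / (Fintype.card k : ℂ) *
        ∑ t : kˣ, ∑ s : k, H s * ((quadraticChar k (t : k) : ℂ) ^ m *
          ψ (-((t : k) * s) - Qs c ξ / (t : k))) := by
  have hq : (Fintype.card k : ℂ) ≠ 0 := by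
    have : Fintype.card k ≠ 0 := Fintype.card_ne_zero
    exact_mod_cast this
  -- the orthogonality relation
  have h1 : ∀ w : Fin m → k, H (QW c w) * ψ (dot ξ w) =
      (Fintype.card k : ℂ)⁻¹ * ∑ s : k, ∑ t : k, H s * ψ (-(t * s)) *
        ψ (t * QW c w + dot ξ w) := by
    intro w
    have h2 : ∀ s : k, ∑ t : k, H s * ψ (-(t * s)) * ψ (t * QW c w + dot ξ w) =
        H s * ψ (dot ξ w) * (if QW c w - s = 0 then (Fintype.card k : ℂ) else 0) := by
      intro s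
      rw [← gauss_orth hψ, Finset.mul_sum]
      refine Finset.sum_congr rfl fun t _ => ?_
      rw [mul_assoc, mul_assoc, ← AddChar.map_add_eq_mul, ← AddChar.map_add_eq_mul]
      congr 2
      ring
    rw [Finset.sum_congr rfl fun s _ => h2 s]
    rw [Finset.sum_eq_single (QW c w)]
    · rw [sub_self, if_pos rfl]
      field_simp
    · intro s _ hs
      rw [if_neg, mul_zero]
      intro h
      exact hs (sub_eq_zero.mp h).symm
    · intro h
      exact absurd (Finset.mem_univ _) h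
  rw [Finset.sum_congr rfl fun w _ => h1 w, ← Finset.mul_sum]
  have h3 : ∑ w : Fin m → k, ∑ s : k, ∑ t : k, H s * ψ (-(t * s)) *
        ψ (t * QW c w + dot ξ w) = ∑ t : k, ∑ s : k, H s * ψ (-(t * s)) *
        ∑ w : Fin m → k, ψ (t * QW c w + dot ξ w) := by
    rw [Finset.sum_comm]
    have h4 : ∀ s : k, ∑ w : Fin m → k, ∑ t : k, H s * ψ (-(t * s)) *
        ψ (t * QW c w + dot ξ w) = ∑ t : k, H s * ψ (-(t * s)) *
        ∑ w : Fin m → k, ψ (t * QW c w + dot ξ w) := by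
      intro s
      rw [Finset.sum_comm]
      exact Finset.sum_congr rfl fun t _ => by rw [Finset.mul_sum]
    rw [Finset.sum_congr rfl fun s _ => h4 s, Finset.sum_comm]
  rw [h3, gauss_units]
  have h5 : ∑ s : k, H s * ψ (-((0 : k) * s)) *
      ∑ w : Fin m → k, ψ ((0 : k) * QW c w + dot ξ w) = 0 := by
    have : ∑ w : Fin m → k, ψ ((0 : k) * QW c w + dot ξ w) = 0 := by
      rw [← gauss_dot hψ hξ]
      exact Finset.sum_congr rfl fun w _ => by rw [zero_mul, zero_add]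
    rw [this]
    simp
  rw [h5, zero_add, Finset.mul_sum, Finset.mul_sum]
  refine Finset.sum_congr rfl fun t _ => ?_
  rw [Finset.mul_sum, Finset.mul_sum]
  refine Finset.sum_congr rfl fun s _ => ?_
  rw [gauss_main hk c hψ ξ t.ne_zero, sub_eq_add_neg, AddChar.map_add_eq_mul]
  ring

private theorem gauss_kloos {ψ : AddChar k ℂ} (hψ : ψ ≠ 1) {κ : k} (hκ : κ ≠ 0) (H : k → ℂ) :
    ∑ p : k, ∑ r : k, H (p * r) * ψ (κ * p + 1 * r) =
      ∑ t : kˣ, ∑ s : k, H s * ψ (-((t : k) * s) - κ / (t : k)) := by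
  rw [Finset.sum_comm, gauss_units]
  have h1 : ∑ p : k, H (p * 0) * ψ (κ * p + 1 * 0) = 0 := by
    have h2 := gauss_orth hψ κ
    rw [if_neg hκ] at h2
    have h3 : ∑ p : k, H (p * 0) * ψ (κ * p + 1 * 0) = H 0 * ∑ p : k, ψ (p * κ) := by
      rw [Finset.mul_sum]
      refine Finset.sum_congr rfl fun p _ => ?_
      rw [mul_zero, mul_zero, add_zero, mul_comm κ p]
    rw [h3, h2, mul_zero]
  rw [h1, zero_add]
  rw [← Equiv.sum_comp (Equiv.divLeft (-(Units.mk0 κ hκ)))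
    (fun u : kˣ => ∑ p : k, H (p * (u : k)) * ψ (κ * p + 1 * (u : k)))]
  refine Finset.sum_congr rfl fun t _ => ?_
  have ht : (t : k) ≠ 0 := t.ne_zero
  have hu : ((Equiv.divLeft (-(Units.mk0 κ hκ)) t : kˣ) : k) = -κ / (t : k) := by
    rw [Equiv.divLeft_apply, Units.val_div_eq_div_val, Units.val_neg, Units.val_mk0]
  have hu0 : (-κ / (t : k)) ≠ 0 := div_ne_zero (neg_ne_zero.mpr hκ) ht
  rw [hu]
  have e2 := Equiv.sum_comp (Equiv.mulRight₀ (-κ / (t : k)) hu0)
    (fun s => H s * ψ (-((t : k) * s) - κ / (t : k)))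
  rw [← e2]
  refine Finset.sum_congr rfl fun p _ => ?_
  rw [Equiv.mulRight₀_apply]
  congr 2
  field_simp
  ring

private theorem gauss_odd {ψ : AddChar k ℂ} (κ C : k) {A : k} (hA : A ≠ 0) (t : kˣ)
    (F : k → ℂ) :
    ∑ s : k, ((Fintype.card k : ℂ)⁻¹ * ∑ y : k, F y * (quadraticChar k ((C - s) / A - y) : ℂ)) *
      ψ (-((t : k) * s) - κ / (t : k)) =
      (Fintype.card k : ℂ)⁻¹ * ((quadraticChar k A : ℂ) * (quadraticChar k (t : k) : ℂ) *
        gaussG ψ) * ∑ s : k, F ((C - s) / A) * ψ (-((t : k) * s) - κ / (t : k)) := by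
  have ht : (t : k) ≠ 0 := t.ne_zero
  have hAi : (quadraticChar k A⁻¹ : ℂ) = (quadraticChar k A : ℂ) := by
    have h1 : ((quadraticChar k (A * A⁻¹) : ℤ) : ℂ) = 1 := by
      rw [mul_inv_cancel₀ hA, map_one, Int.cast_one]
    rw [gauss_mul] at h1
    have h2 := gauss_sq hA
    calc (quadraticChar k A⁻¹ : ℂ) = (quadraticChar k A : ℂ) * (quadraticChar k A : ℂ) *
          (quadraticChar k A⁻¹ : ℂ) := by rw [h2, one_mul]
      _ = (quadraticChar k A : ℂ) * ((quadraticChar k A : ℂ) *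
          (quadraticChar k A⁻¹ : ℂ)) := by ring
      _ = (quadraticChar k A : ℂ) := by rw [h1, mul_one]
  have h1 : ∀ y : k, ∑ s : k, (quadraticChar k ((C - s) / A - y) : ℂ) *
      ψ (-((t : k) * s) - κ / (t : k)) = (quadraticChar k A : ℂ) *
        (quadraticChar k (t : k) : ℂ) * gaussG ψ *
        ψ (-((t : k) * (C - A * y)) - κ / (t : k)) := by
    intro y
    have e := Equiv.sum_comp (Equiv.subLeft (C - A * y))
      (fun s => (quadraticChar k ((C - s) / A - y) : ℂ) * ψ (-((t : k) * s) - κ / (t : k)))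
    rw [← e]
    have h2 : ∀ u : k, (quadraticChar k ((C - Equiv.subLeft (C - A * y) u) / A - y) : ℂ) *
        ψ (-((t : k) * Equiv.subLeft (C - A * y) u) - κ / (t : k)) =
        (quadraticChar k A : ℂ) * ψ (-((t : k) * (C - A * y)) - κ / (t : k)) *
          ((quadraticChar k u : ℂ) * ψ ((t : k) * u)) := by
      intro u
      rw [Equiv.subLeft_apply]
      have h3 : (C - (C - A * y - u)) / A - y = u * A⁻¹ := by
        field_simp
        ring
      have h4 : -((t : k) * (C - A * y - u)) - κ / (t : k) =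
          (-((t : k) * (C - A * y)) - κ / (t : k)) + (t : k) * u := by ring
      rw [h3, h4, gauss_mul, hAi, AddChar.map_add_eq_mul]
      ring
    rw [Finset.sum_congr rfl fun u _ => h2 u, ← Finset.mul_sum, gauss_shift ht]
    ring
  have h5 : ∑ s : k, ((Fintype.card k : ℂ)⁻¹ *
      ∑ y : k, F y * (quadraticChar k ((C - s) / A - y) : ℂ)) *
      ψ (-((t : k) * s) - κ / (t : k)) = (Fintype.card k : ℂ)⁻¹ * ∑ y : k, F y *
      ∑ s : k, (quadraticChar k ((C - s) / A - y) : ℂ) *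
        ψ (-((t : k) * s) - κ / (t : k)) := by
    have h6 : ∑ y : k, F y * ∑ s : k, (quadraticChar k ((C - s) / A - y) : ℂ) *
        ψ (-((t : k) * s) - κ / (t : k)) = ∑ s : k, (∑ y : k, F y *
        (quadraticChar k ((C - s) / A - y) : ℂ)) * ψ (-((t : k) * s) - κ / (t : k)) := by
      have h7 : ∀ y : k, F y * ∑ s : k, (quadraticChar k ((C - s) / A - y) : ℂ) *
          ψ (-((t : k) * s) - κ / (t : k)) = ∑ s : k, F y *
          (quadraticChar k ((C - s) / A - y) : ℂ) * ψ (-((t : k) * s) - κ / (t : k)) := by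
        intro y
        rw [Finset.mul_sum]
        exact Finset.sum_congr rfl fun s _ => by ring
      rw [Finset.sum_congr rfl fun y _ => h7 y, Finset.sum_comm]
      exact Finset.sum_congr rfl fun s _ => by rw [Finset.sum_mul]
    rw [h6, Finset.mul_sum]
    exact Finset.sum_congr rfl fun s _ => by ring
  rw [h5, mul_assoc]
  congr 1
  have e := Equiv.sum_comp ((Equiv.mulLeft₀ A hA).trans (Equiv.subLeft C))
    (fun s => F ((C - s) / A) * ψ (-((t : k) * s) - κ / (t : k)))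
  rw [← e, Finset.mul_sum]
  refine Finset.sum_congr rfl fun y _ => ?_
  rw [h1 y, Equiv.trans_apply, Equiv.mulLeft₀_apply, Equiv.subLeft_apply]
  have h8 : (C - (C - A * y)) / A = y := by
    field_simp
    ring
  rw [h8]
  ring

private theorem gauss_ne (hk : ringChar k ≠ 2) {ψ : AddChar k ℂ} (hψ : ψ ≠ 1) :
    gaussG ψ ≠ 0 := by
  have hχ : (quadraticChar k).ringHomComp (Int.castRingHom ℂ) ≠ 1 := by
    intro h
    obtain ⟨a, ha⟩ := quadraticChar_exists_neg_one' hk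
    have h2 := DFunLike.congr_fun h (a : k)
    rw [MulChar.ringHomComp_apply, ha, MulChar.one_apply_coe] at h2
    norm_num at h2
  have hq : ((Fintype.card k : ℕ) : ℂ) ≠ 0 := by
    have : Fintype.card k ≠ 0 := Fintype.card_ne_zero
    exact_mod_cast this
  have := gaussSum_ne_zero_of_nontrivial hq hχ (AddChar.IsPrimitive.of_ne_one hψ)
  exact this

end aux

/-- `∑_w ψ(t QW w + ξ · w) = η(t)^m Γ ψ(-Qs ξ / t)`, `t ≠ 0`, `Γ` independent of `t`, `ξ`. -/
theorem gauss {k : Type} [Field k] [Fintype k] [DecidableEq k] (hk : ringChar k ≠ 2) {m : ℕ}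
    (c : Fin m → kˣ) (ψ : AddChar k ℂ) (hψ : ψ ≠ 1) :
    ∃ Γ : ℂ, ∀ (t : k) (ξ : Fin m → k), t ≠ 0 →
      ∑ w : Fin m → k, ψ (t * QW c w + dot ξ w) =
        (quadraticChar k t : ℂ) ^ m * Γ * ψ (-(Qs c ξ / t)) := by
  exact ⟨gaussG ψ ^ m * ∏ i, (quadraticChar k (c i : k) : ℂ),
    fun t ξ ht => gauss_main hk c hψ ξ ht⟩

/-- Even `m`: `F' = F`, `χ = 1`, `lam = Γ / q`. Odd `m`: `F'(s) = (1 / q) ∑ F(z) η(s - z)`,
`χ = η`, `lam = Γ / G`, `G = ∑ η(t) ψ(t)`. -/
theorem fourier_kernel {k : Type} [Field k] [Fintype k] [DecidableEq k] (hk : ringChar k ≠ 2)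
    {m : ℕ} (hm : 1 ≤ m) (c : Fin m → kˣ) (ψ : AddChar k ℂ) (hψ : ψ ≠ 1) (F : k → ℂ) :
    ∃ (lam : ℂ) (χ : kˣ → ℂ) (F' : k → ℂ), ∀ (c₀ a b : kˣ) (ξ : Fin m → k), Qs c ξ ≠ 0 →
      ∑ w : Fin m → k, F (((c₀ : k) * ((a : k) ^ 2 + (b : k) ^ 2) - QW c w) /
          ((a : k) * (b : k))) * ψ (dot ξ w) =
        lam * χ a * χ b * ∑ p : k, ∑ r : k,
          F' ((c₀ * a ^ 2 + c₀ * b ^ 2 - p * r) / (a * b)) * ψ (Qs c ξ * p + 1 * r) := by
  have hq : ((Fintype.card k : ℕ) : ℂ) ≠ 0 := by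
    have : Fintype.card k ≠ 0 := Fintype.card_ne_zero
    exact_mod_cast this
  have hG := gauss_ne hk hψ
  have hξ0 : ∀ ξ : Fin m → k, Qs c ξ ≠ 0 → ξ ≠ 0 := by
    intro ξ h h0
    apply h
    rw [h0]
    unfold Qs
    simp
  rcases Nat.even_or_odd m with hev | hodd
  · refine ⟨(gaussG ψ ^ m * ∏ i, (quadraticChar k (c i : k) : ℂ)) / (Fintype.card k : ℂ),
      fun _ => 1, F, ?_⟩
    intro c₀ a b ξ hξ
    rw [gauss_expand hk c hψ (hξ0 ξ hξ) (fun y => F (((c₀ : k) * ((a : k) ^ 2 + (b : k) ^ 2) - y) /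
        ((a : k) * (b : k)))), gauss_kloos hψ hξ
        (fun y => F (((c₀ : k) * (a : k) ^ 2 + (c₀ : k) * (b : k) ^ 2 - y) /
        ((a : k) * (b : k)))), mul_one, mul_one]
    congr 1
    refine Finset.sum_congr rfl fun t _ => Finset.sum_congr rfl fun s _ => ?_
    have h1 : (quadraticChar k (t : k) : ℂ) ^ m = 1 := by
      obtain ⟨j, hj⟩ := hev
      rw [hj, ← two_mul, pow_mul, pow_two, gauss_sq t.ne_zero, one_pow]
    rw [h1, one_mul, mul_add]
  · refine ⟨(gaussG ψ ^ m * ∏ i, (quadraticChar k (c i : k) : ℂ)) / gaussG ψ,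
      fun u => (quadraticChar k (u : k) : ℂ), fun z => (Fintype.card k : ℂ)⁻¹ *
      ∑ y : k, F y * (quadraticChar k (z - y) : ℂ), ?_⟩
    intro c₀ a b ξ hξ
    have hab : ((a : k) * (b : k)) ≠ 0 := mul_ne_zero a.ne_zero b.ne_zero
    rw [gauss_expand hk c hψ (hξ0 ξ hξ) (fun y => F (((c₀ : k) * ((a : k) ^ 2 + (b : k) ^ 2) - y) /
        ((a : k) * (b : k)))), gauss_kloos hψ hξ
        (fun s => (Fintype.card k : ℂ)⁻¹ * ∑ y : k, F y *
        (quadraticChar k (((c₀ : k) * (a : k) ^ 2 + (c₀ : k) * (b : k) ^ 2 - s) /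
        ((a : k) * (b : k)) - y) : ℂ))]
    rw [Finset.sum_congr rfl fun t _ => gauss_odd (ψ := ψ) (Qs c ξ)
      ((c₀ : k) * (a : k) ^ 2 + (c₀ : k) * (b : k) ^ 2) hab t F]
    rw [Finset.mul_sum, Finset.mul_sum]
    refine Finset.sum_congr rfl fun t _ => ?_
    rw [gauss_mul]
    have h1 : (quadraticChar k (t : k) : ℂ) ^ m = (quadraticChar k (t : k) : ℂ) := by
      obtain ⟨j, hj⟩ := hodd
      rw [hj, pow_succ, pow_mul, pow_two, gauss_sq t.ne_zero, one_pow, one_mul]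
    rw [h1]
    have h2 : ∑ s : k, F (((c₀ : k) * ((a : k) ^ 2 + (b : k) ^ 2) - s) / ((a : k) * (b : k))) *
        ((quadraticChar k (t : k) : ℂ) * ψ (-((t : k) * s) - Qs c ξ / (t : k))) =
        (quadraticChar k (t : k) : ℂ) * ∑ s : k,
        F (((c₀ : k) * (a : k) ^ 2 + (c₀ : k) * (b : k) ^ 2 - s) / ((a : k) * (b : k))) *
        ψ (-((t : k) * s) - Qs c ξ / (t : k)) := by
      rw [Finset.mul_sum]
      refine Finset.sum_congr rfl fun s _ => ?_
      rw [mul_add]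
      ring
    rw [h2]
    have ha := gauss_sq a.ne_zero
    have hb := gauss_sq b.ne_zero
    obtain ⟨X, hX⟩ : ∃ X, X = ∑ s : k,
        F (((c₀ : k) * (a : k) ^ 2 + (c₀ : k) * (b : k) ^ 2 - s) / ((a : k) * (b : k))) *
        ψ (-((t : k) * s) - Qs c ξ / (t : k)) := ⟨_, rfl⟩
    rw [← hX]
    obtain ⟨P, hP⟩ : ∃ P, P = gaussG ψ ^ m * ∏ i, (quadraticChar k (c i : k) : ℂ) := ⟨_, rfl⟩
    rw [← hP]
    field_simp
    linear_combination (-P * X * (quadraticChar k (t : k) : ℂ)) * (ha * 1 +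
      ((quadraticChar k (a : k) : ℂ) * (quadraticChar k (a : k) : ℂ)) * hb)

end MP0775d3.Quadric
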